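import Pool.Agent.Lib_helper92.BG.Defs

set_option linter.unusedSectionVars false

/-! Block TAIL. -/

namespace Pool.Agent.BF

open Finset

variable {ι : Type} [Fintype ι] [DecidableEq ι]

theorem TAIL_exp {K : ℕ} (x : ι) (s : ℝ) :
    Ex (fun ω : Om ι K => Real.exp (s * TT ω x)) ≤ Real.exp (s ^ 2 * K / 2) := by
  have h1 := good_exp (K := K) x s
  have hc : (0 : ℝ) < Fintype.card (Om ι K) := by exact_mod_cast Fintype.card_pos
  unfold Ex TT
  rw [h1, mul_div_assoc, div_self hc.ne', mul_one]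
  calc Real.cosh s ^ K ≤ Real.exp (s ^ 2 / 2) ^ K :=
        pow_le_pow_left₀ (Real.cosh_pos _).le (Real.cosh_le_exp_half_sq s) K
    _ = Real.exp (s ^ 2 * K / 2) := by
        rw [← Real.exp_nat_mul]; congr 1; ring

theorem tail_pr {K : ℕ} (hK : 1 ≤ K) {τ : ℝ} (hτ : 0 ≤ τ) :
    Ex (fun ω : Om ι K => if ∃ x, τ < |TT ω x| then 1 else 0) ≤
      2 * Fintype.card ι * Real.exp (-(τ ^ 2 / (2 * K))) := by
  have hK0 : (0 : ℝ) < K := by exact_mod_cast hK
  set s : ℝ := τ / K with hs
  have hs0 : 0 ≤ s := div_nonneg hτ hK0.le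
  have hpt : ∀ ω : Om ι K, (if ∃ x, τ < |TT ω x| then (1 : ℝ) else 0) ≤
      ∑ x : ι, (Real.exp (-(s * τ)) * Real.exp (s * TT ω x) +
        Real.exp (-(s * τ)) * Real.exp (-s * TT ω x)) := by
    intro ω
    split_ifs with h
    · obtain ⟨x, hx⟩ := h
      refine le_trans ?_ (Finset.single_le_sum
        (f := fun x : ι => (Real.exp (-(s * τ)) * Real.exp (s * TT ω x) +
          Real.exp (-(s * τ)) * Real.exp (-s * TT ω x)))
        (fun y _ => by positivity) (Finset.mem_univ x))
      show (1 : ℝ) ≤ Real.exp (-(s * τ)) * Real.exp (s * TT ω x) +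
          Real.exp (-(s * τ)) * Real.exp (-s * TT ω x)
      rw [← Real.exp_add, ← Real.exp_add]
      rcases le_or_gt 0 (TT ω x) with h0 | h0
      · rw [abs_of_nonneg h0] at hx
        have h1 : 0 ≤ -(s * τ) + s * TT ω x := by nlinarith
        have h2 := Real.one_le_exp h1
        have h3 := Real.exp_pos (-(s * τ) + -s * TT ω x)
        linarith
      · rw [abs_of_neg h0] at hx
        have h1 : 0 ≤ -(s * τ) + -s * TT ω x := by nlinarith
        have h2 := Real.one_le_exp h1
        have h3 := Real.exp_pos (-(s * τ) + s * TT ω x)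
        linarith
    · exact Finset.sum_nonneg fun y _ => by positivity
  refine (est_ex_mono hpt).trans ?_
  rw [est_ex_sum]
  have hx : ∀ x : ι, Ex (fun ω : Om ι K => (Real.exp (-(s * τ)) * Real.exp (s * TT ω x) +
        Real.exp (-(s * τ)) * Real.exp (-s * TT ω x))) ≤ 2 * Real.exp (-(τ ^ 2 / (2 * K))) := by
    intro x
    rw [est_ex_add, est_ex_mul, est_ex_mul]
    have h1 := TAIL_exp (K := K) x s
    have h2 := TAIL_exp (K := K) x (-s)
    have h3 : (0 : ℝ) < Real.exp (-(s * τ)) := Real.exp_pos _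
    have h4 : Real.exp (-(s * τ)) * Real.exp (s ^ 2 * K / 2) = Real.exp (-(τ ^ 2 / (2 * K))) := by
      rw [← Real.exp_add]
      congr 1
      rw [hs]
      field_simp
      ring
    rw [neg_sq] at h2
    have h5 := mul_le_mul_of_nonneg_left h1 h3.le
    have h6 := mul_le_mul_of_nonneg_left h2 h3.le
    rw [h4] at h5 h6
    linarith
  calc ∑ x : ι, Ex (fun ω : Om ι K => (Real.exp (-(s * τ)) * Real.exp (s * TT ω x) +
        Real.exp (-(s * τ)) * Real.exp (-s * TT ω x)))
      ≤ ∑ _x : ι, 2 * Real.exp (-(τ ^ 2 / (2 * K))) := Finset.sum_le_sum fun x _ => hx x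
    _ = 2 * Fintype.card ι * Real.exp (-(τ ^ 2 / (2 * K))) := by
        rw [Finset.sum_const, Finset.card_univ, nsmul_eq_mul]; ring

end Pool.Agent.BF

namespace Pool.Agent.BF

theorem tail : type_of% @tail_pr := @tail_pr

end Pool.Agent.BF
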