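import Pool.Agent.Lib_helper92.BG.Defs

set_option linter.unusedSectionVars false

/-! Block RAT. -/

namespace Pool.Agent.BF

open Finset

theorem RAT_exp2 {r : ℝ} (hr : 0 ≤ r) (hr4 : r ≤ 1 / 4) : Real.exp (2 * r) * (1 - r) ≤ 1 + r := by
  have h1 := Real.exp_bound' (x := 2 * r) (by linarith) (by linarith) (n := 3) (by norm_num)
  simp only [Finset.sum_range_succ, Finset.sum_range_zero, Nat.factorial] at h1
  norm_num at h1
  have h2 : Real.exp (2 * r) ≤ 1 + 2 * r + 2 * r ^ 2 + 16 / 9 * r ^ 3 := by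
    refine h1.trans (le_of_eq ?_)
    ring
  have h3 : 0 ≤ 1 - r := by linarith
  have h4 := mul_le_mul_of_nonneg_right h2 h3
  have h5 : 0 ≤ r ^ 3 := by positivity
  have h6 : 0 ≤ r ^ 4 := by positivity
  nlinarith

theorem RAT_real {K s : ℝ} (hK : 0 < K) (hs : |s| ≤ 1 / 4) (hs3 : |s| ^ 3 ≤ 1 / K) :
    Real.exp (-(2 * s) - 5 / K) * (1 + s + 2 / K) ≤ 1 - s := by
  have hK1 : 0 < 1 / K := by positivity
  rcases le_or_gt 0 s with h0 | h0
  · rw [abs_of_nonneg h0] at hs hs3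
    have h1 : 1 + s + 2 / K ≤ (1 + s) * Real.exp (2 / K) := by
      have := Real.add_one_le_exp (2 / K)
      have h2 : (1 + s) * (2 / K + 1) ≤ (1 + s) * Real.exp (2 / K) :=
        mul_le_mul_of_nonneg_left this (by linarith)
      have h3 : 0 ≤ s * (2 / K) := by positivity
      nlinarith
    have h4 : 1 + s ≤ (1 - s) * Real.exp (2 * s + 3 * (1 / K)) := by
      have h5 : 0 ≤ 2 * s + 3 * (1 / K) := by positivity
      have h6 := Real.quadratic_le_exp_of_nonneg h5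
      have h7 : 1 + 2 * s + 2 * s ^ 2 + 3 * s ^ 3 ≤ Real.exp (2 * s + 3 * (1 / K)) := by
        nlinarith [mul_nonneg h0 hK1.le, sq_nonneg (1 / K)]
      have h8 : 0 ≤ 1 - s := by linarith
      have h9 := mul_le_mul_of_nonneg_left h7 h8
      have h10 : 0 ≤ s ^ 3 * (1 / 3 - s) := mul_nonneg (by positivity) (by linarith)
      nlinarith
    calc Real.exp (-(2 * s) - 5 / K) * (1 + s + 2 / K)
        ≤ Real.exp (-(2 * s) - 5 / K) * ((1 + s) * Real.exp (2 / K)) :=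
          mul_le_mul_of_nonneg_left h1 (Real.exp_pos _).le
      _ = (Real.exp (-(2 * s) - 5 / K) * Real.exp (2 / K)) * (1 + s) := by ring
      _ ≤ (Real.exp (-(2 * s) - 5 / K) * Real.exp (2 / K)) *
          ((1 - s) * Real.exp (2 * s + 3 * (1 / K))) :=
          mul_le_mul_of_nonneg_left h4 (by positivity)
      _ = (Real.exp (-(2 * s) - 5 / K) * Real.exp (2 / K) * Real.exp (2 * s + 3 * (1 / K))) *
          (1 - s) := by ring
      _ = 1 - s := by
          rw [← Real.exp_add, ← Real.exp_add]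
          have : -(2 * s) - 5 / K + 2 / K + (2 * s + 3 * (1 / K)) = 0 := by ring
          rw [this, Real.exp_zero, one_mul]
  · obtain ⟨r, rfl⟩ : ∃ r, s = -r := ⟨-s, by ring⟩
    have hr0 : 0 ≤ r := by linarith
    rw [abs_neg, abs_of_nonneg hr0] at hs hs3
    have h1 : 1 + -r + 2 / K ≤ (1 - r) * Real.exp (5 / K) := by
      have := Real.add_one_le_exp (5 / K)
      have h2 : (1 - r) * (5 / K + 1) ≤ (1 - r) * Real.exp (5 / K) :=
        mul_le_mul_of_nonneg_left this (by linarith)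
      have h3 : (3 / 4 : ℝ) * (5 / K) ≤ (1 - r) * (5 / K) :=
        mul_le_mul_of_nonneg_right (by linarith) (by positivity)
      have h4 : (3 / 4 : ℝ) * (5 / K) = 2 / K + (7 / 4) * (1 / K) := by ring
      linarith
    calc Real.exp (-(2 * -r) - 5 / K) * (1 + -r + 2 / K)
        ≤ Real.exp (-(2 * -r) - 5 / K) * ((1 - r) * Real.exp (5 / K)) :=
          mul_le_mul_of_nonneg_left h1 (Real.exp_pos _).le
      _ = (Real.exp (-(2 * -r) - 5 / K) * Real.exp (5 / K)) * (1 - r) := by ring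
      _ = Real.exp (2 * r) * (1 - r) := by
          rw [← Real.exp_add]
          congr 2
          ring
      _ ≤ 1 + r := RAT_exp2 hr0 hs
      _ = 1 - -r := by ring

theorem RAT_step {K : ℕ} (hK : 64 ≤ K) {τ : ℝ} (hτ : 0 ≤ τ) (hτ3 : (τ + 2) ^ 3 ≤ (K : ℝ) ^ 2)
    (v : ℕ) (hv : |2 * (v : ℝ) - K| ≤ τ + 2) :
    bw K v * Real.exp (-(2 * ((2 * (v : ℝ) - K) / K)) - 5 / K) ≤ bw K (v + 1) := by
  have hK0 : (64 : ℝ) ≤ K := by exact_mod_cast hK
  have hKp : (0 : ℝ) < K := by linarith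
  have hτK : τ + 2 ≤ K / 4 := by
    by_contra h
    push Not at h
    have h1 : (K / 4 : ℝ) ^ 3 < (τ + 2) ^ 3 := pow_lt_pow_left₀ h (by positivity) (by norm_num)
    have h2 : (K : ℝ) ^ 2 ≤ (K / 4 : ℝ) ^ 3 := by
      have : (K / 4 : ℝ) ^ 3 = K ^ 2 * (K / 64) := by ring
      rw [this]
      have : (1 : ℝ) ≤ K / 64 := by rw [le_div_iff₀ (by norm_num)]; linarith
      nlinarith [sq_nonneg (K : ℝ)]
    linarith
  set s : ℝ := (2 * (v : ℝ) - K) / K with hs
  have hsabs : |s| ≤ (τ + 2) / K := by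
    rw [hs, abs_div, abs_of_pos hKp]
    exact div_le_div_of_nonneg_right hv hKp.le
  have hs4 : |s| ≤ 1 / 4 := by
    refine hsabs.trans ?_
    rw [div_le_iff₀ hKp]; linarith
  have hs3 : |s| ^ 3 ≤ 1 / K := by
    calc |s| ^ 3 ≤ ((τ + 2) / K) ^ 3 := pow_le_pow_left₀ (abs_nonneg _) hsabs 3
      _ = (τ + 2) ^ 3 / K ^ 3 := by ring
      _ ≤ K ^ 2 / K ^ 3 := div_le_div_of_nonneg_right hτ3 (by positivity)
      _ = 1 / K := by field_simp
  have hreal := RAT_real hKp hs4 hs3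
  have hvK : v ≤ K := by
    have h1 := (abs_le.1 hv).2
    have h2 : (v : ℝ) ≤ K := by linarith
    exact_mod_cast h2
  have e1 : (K.choose (v + 1) : ℝ) * (v + 1) = K.choose v * (K - v) := by
    have := Nat.choose_succ_right_eq K v
    have h3 : ((K.choose (v + 1) * (v + 1) : ℕ) : ℝ) = ((K.choose v * (K - v) : ℕ) : ℝ) := by
      rw [this]
    push_cast [Nat.cast_sub hvK] at h3
    exact h3
  have e2 : (1 + s + 2 / K) = 2 * ((v : ℝ) + 1) / K := by
    rw [hs]; field_simp; ring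
  have e3 : (1 - s) = 2 * ((K : ℝ) - v) / K := by
    rw [hs]; field_simp; ring
  rw [e2, e3] at hreal
  set E := Real.exp (-(2 * s) - 5 / K) with hE
  have h5 : E * ((v : ℝ) + 1) ≤ K - v := by
    have h6 : E * (2 * ((v : ℝ) + 1) / K) = (E * ((v : ℝ) + 1)) * (2 / K) := by ring
    have h7 : 2 * ((K : ℝ) - v) / K = (K - v) * (2 / K) := by ring
    rw [h6, h7] at hreal
    exact le_of_mul_le_mul_right hreal (by positivity)
  have hc : (0 : ℝ) ≤ K.choose v := Nat.cast_nonneg _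
  have hv1 : (0 : ℝ) < (v : ℝ) + 1 := by positivity
  have h8 : (K.choose v : ℝ) * E * (v + 1) ≤ K.choose (v + 1) * (v + 1) := by
    rw [e1]
    have := mul_le_mul_of_nonneg_left h5 hc
    linarith
  have h9 : (K.choose v : ℝ) * E ≤ K.choose (v + 1) := le_of_mul_le_mul_right h8 hv1
  unfold bw
  rw [div_mul_eq_mul_div]
  exact div_le_div_of_nonneg_right h9 (by positivity)

theorem RAT_one {K : ℕ} (hK : 64 ≤ K) {τ : ℝ} (hτ : 0 ≤ τ) (hτ3 : (τ + 2) ^ 3 ≤ (K : ℝ) ^ 2)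
    (v : ℕ) (hv : |2 * (v : ℝ) - K| ≤ τ) :
    bw K v * Real.exp (-(4 / K * (2 * (v : ℝ) - K)) - 14 / K) ≤ bw K (v + 2) := by
  have hK0 : (64 : ℝ) ≤ K := by exact_mod_cast hK
  have hKp : (0 : ℝ) < K := by linarith
  have h1 := RAT_step hK hτ hτ3 v (hv.trans (by linarith))
  have h2 := RAT_step hK hτ hτ3 (v + 1) (by
    push_cast
    rw [abs_le] at hv ⊢
    constructor <;> linarith [hv.1, hv.2])
  have h3 := mul_le_mul_of_nonneg_right h1
    (Real.exp_pos (-(2 * ((2 * ((v + 1 : ℕ) : ℝ) - K) / K)) - 5 / K)).le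
  have h4 := h3.trans h2
  rw [mul_assoc, ← Real.exp_add] at h4
  refine le_trans (le_of_eq ?_) h4
  congr 2
  push_cast
  field_simp
  ring

theorem ratio_pr {K : ℕ} (hK : 64 ≤ K) {τ : ℝ} (hτ : 0 ≤ τ) (hτ3 : (τ + 2) ^ 3 ≤ (K : ℝ) ^ 2)
    (j z : ℤ) (hj : |2 * (j : ℝ) - K| ≤ τ) (hz : z = -1 ∨ z = 0 ∨ z = 1) :
    pack_b K j * Real.exp (-(4 / K * (z * (2 * (j : ℝ) - K))) - 14 / K * |(z : ℝ)|) ≤
      pack_b K (j + 2 * z) := by
  have hK0 : (64 : ℝ) ≤ K := by exact_mod_cast hK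
  have hKp : (0 : ℝ) < K := by linarith
  have hτK : τ + 2 ≤ K / 4 := by
    by_contra h
    push Not at h
    have h1 : (K / 4 : ℝ) ^ 3 < (τ + 2) ^ 3 := pow_lt_pow_left₀ h (by positivity) (by norm_num)
    have h2 : (K : ℝ) ^ 2 ≤ (K / 4 : ℝ) ^ 3 := by
      have : (K / 4 : ℝ) ^ 3 = K ^ 2 * (K / 64) := by ring
      rw [this]
      have : (1 : ℝ) ≤ K / 64 := by rw [le_div_iff₀ (by norm_num)]; linarith
      nlinarith [sq_nonneg (K : ℝ)]
    linarith
  have hj1 := (abs_le.1 hj).1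
  have hj2 := (abs_le.1 hj).2
  have hjl : (2 : ℤ) ≤ j := by
    have h1 : (2 : ℝ) ≤ (j : ℝ) := by linarith
    exact_mod_cast h1
  have hju : j + 2 ≤ K := by
    have h1 : (j : ℝ) + 2 ≤ K := by linarith
    exact_mod_cast h1
  obtain ⟨v, rfl⟩ : ∃ v : ℕ, j = (v : ℤ) := ⟨j.toNat, by omega⟩
  rcases hz with rfl | rfl | rfl
  · -- `z = -1`
    have hv2 : 2 ≤ v := by omega
    have hvK : v + 2 ≤ K := by omega
    have h1 := RAT_one hK hτ hτ3 (K - v) (by
      rw [Nat.cast_sub (by omega : v ≤ K)]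
      rw [abs_le]
      push_cast at hj1 hj2
      constructor <;> linarith)
    have a1 : (v : ℤ) + 2 * -1 = ((v - 2 : ℕ) : ℤ) := by omega
    rw [a1, pack_b_nat, pack_b_nat]
    have s1 : bw K (K - v) = bw K v := by
      unfold bw; rw [Nat.choose_symm (by omega : v ≤ K)]
    have s2 : bw K (K - v + 2) = bw K (v - 2) := by
      unfold bw
      have : K - v + 2 = K - (v - 2) := by omega
      rw [this, Nat.choose_symm (by omega : v - 2 ≤ K)]
    rw [s1, s2, Nat.cast_sub (by omega : v ≤ K)] at h1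
    refine le_trans (le_of_eq ?_) h1
    congr 2
    push_cast
    rw [abs_neg, abs_one]
    ring
  · simp
  · have h1 := RAT_one hK hτ hτ3 v (by push_cast at hj; exact hj)
    have a1 : (v : ℤ) + 2 * 1 = ((v + 2 : ℕ) : ℤ) := by omega
    rw [a1, pack_b_nat, pack_b_nat]
    refine le_trans (le_of_eq ?_) h1
    congr 2
    push_cast
    rw [abs_one]
    ring

end Pool.Agent.BF

namespace Pool.Agent.BF

theorem ratio : type_of% @ratio_pr := @ratio_pr

end Pool.Agent.BF
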