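import Pool.Agent.Lib_helper92.BG.Defs
import Pool.Agent.Lib_helper92.BGA.RAT

set_option linter.unusedSectionVars false

/-! Block VOR. -/

namespace Pool.Agent.BF

open Finset

variable {ι : Type} [Fintype ι] [DecidableEq ι] {S : Type} [AddCommGroup S] [Fintype S]
  [DecidableEq S]

theorem VOR_ex {K : ℕ} (Φ : (ι → ℤ) → ℝ) :
    Ex (fun ω : Om ι K => Φ (fun x => (gam ω x : ℤ))) =
      ∑ u ∈ Fintype.piFinset (fun _ : ι => Finset.Icc (0 : ℤ) K),
        (∏ x, pack_b K (u x)) * Φ u := by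
  unfold Ex
  have hmaps : ∀ ω ∈ (univ : Finset (Om ι K)), (fun x => (gam ω x : ℤ)) ∈
      Fintype.piFinset (fun _ : ι => Finset.Icc (0 : ℤ) K) := by
    intro ω _
    rw [Fintype.mem_piFinset]
    intro x
    rw [Finset.mem_Icc]
    have := gam_le ω x
    omega
  rw [← Finset.sum_fiberwise_of_maps_to hmaps, Finset.sum_div]
  refine Finset.sum_congr rfl fun u hu => ?_
  rw [Fintype.mem_piFinset] at hu
  have hu0 : ∀ x, 0 ≤ u x := fun x => (Finset.mem_Icc.1 (hu x)).1
  have h1 : ∑ ω ∈ (univ : Finset (Om ι K)) with (fun x => (gam ω x : ℤ)) = u,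
      Φ (fun x => (gam ω x : ℤ)) =
      ((univ.filter fun ω : Om ι K => gam ω = fun x => (u x).toNat).card : ℝ) * Φ u := by
    rw [← nsmul_eq_mul, ← Finset.sum_const]
    have hset : (univ.filter fun ω : Om ι K => (fun x => (gam ω x : ℤ)) = u) =
        univ.filter fun ω : Om ι K => gam ω = fun x => (u x).toNat := by
      ext ω
      simp only [mem_filter, mem_univ, true_and]
      constructor
      · intro h
        funext x
        have := congrFun h x
        omega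
      · intro h
        funext x
        have h7 := congrFun h x
        have h8 := hu0 x
        omega
    rw [hset]
    refine Finset.sum_congr rfl fun ω hω => ?_
    rw [Finset.mem_filter] at hω
    congr 1
    funext x
    have := congrFun hω.2 x
    have := hu0 x
    omega
  rw [h1, pack_card_om]
  have h10 : (Fintype.card (Om ι K) : ℝ) = (2 ^ K) ^ Fintype.card ι := by
    simp [Om, Fintype.card_prod, pow_mul, mul_comm]
  have h11 : ∏ x, pack_b K (u x) =
      (∏ x, (K.choose (u x).toNat : ℝ)) / (2 ^ K) ^ Fintype.card ι := by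
    have : ∀ x, pack_b K (u x) = (K.choose (u x).toNat : ℝ) / 2 ^ K := by
      intro x
      unfold pack_b bw
      rw [if_pos (hu0 x)]
    simp_rw [this]
    rw [Finset.prod_div_distrib, Finset.prod_const, Finset.card_univ]
  rw [h10, h11]
  push_cast
  ring

theorem VOR_shift {K : ℕ} (hK : 64 ≤ K) {τ : ℝ} (hτ : 0 ≤ τ)
    (hτ3 : (τ + 2) ^ 3 ≤ (K : ℝ) ^ 2) (Z : ι → ℤ) (hZ : ∀ x, Z x = -1 ∨ Z x = 0 ∨ Z x = 1)
    (u : ι → ℤ) (hu : ∀ x, |2 * (u x : ℝ) - K| ≤ τ) :
    (∏ x, pack_b K (u x)) * (1 - 4 / K * (∑ x, (2 * (u x : ℝ) - K) * Z x) -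
      14 / K * ∑ x, |(Z x : ℝ)|) ≤ ∏ x, pack_b K (u x + 2 * Z x) := by
  have h1 : ∏ x, (pack_b K (u x) *
      Real.exp (-(4 / K * (Z x * (2 * (u x : ℝ) - K))) - 14 / K * |(Z x : ℝ)|)) ≤
      ∏ x, pack_b K (u x + 2 * Z x) :=
    Finset.prod_le_prod (fun x _ => mul_nonneg (pack_b_nonneg K _) (Real.exp_pos _).le)
      fun x _ => ratio hK hτ hτ3 (u x) (Z x) (hu x) (hZ x)
  refine le_trans ?_ h1
  rw [Finset.prod_mul_distrib, ← Real.exp_sum]
  refine mul_le_mul_of_nonneg_left ?_ (Finset.prod_nonneg fun x _ => pack_b_nonneg K _)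
  refine le_trans (le_of_eq ?_) (Real.add_one_le_exp _)
  rw [Finset.sum_sub_distrib, Finset.sum_neg_distrib, ← Finset.mul_sum, ← Finset.mul_sum]
  have : ∑ x, (Z x : ℝ) * (2 * (u x : ℝ) - K) = ∑ x, (2 * (u x : ℝ) - K) * Z x :=
    Finset.sum_congr rfl fun x _ => by ring
  rw [this]
  ring

theorem VOR_lin (e : ι → S) {K : ℕ} (x : ι) (g : S) :
    Ex (fun ω : Om ι K => (if sg e ω = g then 1 else 0) * TT ω x) =
      (K : ℝ) * hh e K x g * mu e (fun _ => K) g := by
  have h1 : (fun ω : Om ι K => (if sg e ω = g then (1 : ℝ) else 0) * TT ω x) =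
      fun ω : Om ι K => ∑ k : Fin K, (fun s : S => if s = g then (1 : ℝ) else 0) (sg e ω) *
        bt (ω (x, k)) := by
    funext ω
    rw [← Finset.mul_sum, est_sum_bt]
    rfl
  rw [h1, est_ex_sum]
  have h2 : ∀ k : Fin K, Ex (fun ω : Om ι K =>
      (fun s : S => if s = g then (1 : ℝ) else 0) (sg e ω) * bt (ω (x, k))) =
      hh e K x g * mu e (fun _ => K) g := by
    intro k
    rw [ex_hh e x k (fun s : S => if s = g then (1 : ℝ) else 0)]
    rw [ex_sg e K (fun s : S => (if s = g then (1 : ℝ) else 0) * hh e K x s)]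
    rw [Finset.sum_eq_single g]
    · simp
    · intro s _ hs
      simp [hs]
    · intro h
      exact absurd (Finset.mem_univ g) h
  rw [Finset.sum_congr rfl fun k _ => h2 k]
  simp
  ring

theorem VOR_mu (e : ι → S) {K : ℕ} (g : S) :
    Ex (fun ω : Om ι K => if sg e ω = g then (1 : ℝ) else 0) = mu e (fun _ => K) g := by
  rw [ex_sg e K (fun s : S => if s = g then (1 : ℝ) else 0), Finset.sum_eq_single g]
  · simp
  · intro s _ hs
    simp [hs]
  · intro h
    exact absurd (Finset.mem_univ g) h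

theorem VOR_half (e : ι → S) {K : ℕ} (hK : 64 ≤ K) {τ : ℝ} (hτ : 0 ≤ τ)
    (hτ3 : (τ + 2) ^ 3 ≤ (K : ℝ) ^ 2) (Z : ι → ℤ) (hZ : ∀ x, Z x = -1 ∨ Z x = 0 ∨ Z x = 1)
    (hker : ∑ x, (2 * Z x) • e x = 0) (g : S) :
    -((∑ x, ((K : ℝ) * hh e K x g) * (Z x : ℝ)) * mu e (fun _ => K) g) ≤
      (∑ x, |(Z x : ℝ)|) * (7 / 2 * mu e (fun _ => K) g + 5 / 4 * K *
        Ex (fun ω : Om ι K => if sg e ω = g ∧ ∃ x, τ < |TT ω x| then 1 else 0)) := by
  classical
  have hK0 : (64 : ℝ) ≤ K := by exact_mod_cast hK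
  have hKp : (0 : ℝ) < K := by linarith
  set N : ℝ := ∑ x, |(Z x : ℝ)| with hN
  set Box := Fintype.piFinset (fun _ : ι => Finset.Icc (0 : ℤ) K) with hBox
  set B : (ι → ℤ) → ℝ := fun u => ∏ x, pack_b K (u x) with hB
  have hB0 : ∀ u, 0 ≤ B u := fun u => Finset.prod_nonneg fun x _ => pack_b_nonneg K _
  set P : ℝ := Ex (fun ω : Om ι K => if sg e ω = g ∧ ∃ x, τ < |TT ω x| then 1 else 0) with hP
  set m : ℝ := mu e (fun _ => K) g with hm
  -- the three expectations as sums over the box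
  have em : m = ∑ u ∈ Box, B u * (if pack_syn e u = g then 1 else 0) := by
    rw [hm, ← VOR_mu, ← VOR_ex]
    congr 1
    funext ω
    rw [pack_syn_gam]
  have eP : P = ∑ u ∈ Box, B u *
      (if pack_syn e u = g ∧ ∃ x, τ < |2 * (u x : ℝ) - K| then 1 else 0) := by
    rw [hP, ← VOR_ex]
    congr 1
    funext ω
    rw [pack_syn_gam]
    simp only [TT]
    push_cast
    rfl
  have eL : ∀ x, (K : ℝ) * hh e K x g * m = ∑ u ∈ Box, B u *
      ((if pack_syn e u = g then 1 else 0) * (2 * (u x : ℝ) - K)) := by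
    intro x
    rw [hm, ← VOR_lin, ← VOR_ex]
    congr 1
    funext ω
    rw [pack_syn_gam]
    simp only [TT]
    push_cast
    rfl
  have eL2 : (∑ x, ((K : ℝ) * hh e K x g) * (Z x : ℝ)) * m = ∑ u ∈ Box, B u *
      ((if pack_syn e u = g then 1 else 0) * ∑ x, (2 * (u x : ℝ) - K) * Z x) := by
    rw [Finset.sum_mul]
    have : ∀ x, (K : ℝ) * hh e K x g * (Z x : ℝ) * m = ((K : ℝ) * hh e K x g * m) * Z x :=
      fun x => by ring
    simp_rw [this, eL, Finset.sum_mul]
    rw [Finset.sum_comm]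
    refine Finset.sum_congr rfl fun u _ => ?_
    rw [Finset.mul_sum, Finset.mul_sum]
    exact Finset.sum_congr rfl fun x _ => by ring
  -- the shift
  have hτK : τ + 2 ≤ K / 4 := by
    by_contra h
    push Not at h
    have h1 : (K / 4 : ℝ) ^ 3 < (τ + 2) ^ 3 := pow_lt_pow_left₀ h (by positivity) (by norm_num)
    have h2 : (K : ℝ) ^ 2 ≤ (K / 4 : ℝ) ^ 3 := by
      have : (K / 4 : ℝ) ^ 3 = K ^ 2 * (K / 64) := by ring
      rw [this]
      have : (1 : ℝ) ≤ K / 64 := by rw [le_div_iff₀ (by norm_num)]; linarith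
      nlinarith [sq_nonneg (K : ℝ)]
    linarith
  have hgoodbox : ∀ u : ι → ℤ, (∀ x, |2 * (u x : ℝ) - K| ≤ τ) →
      (fun x => u x + 2 * Z x) ∈ Box := by
    intro u hu
    rw [hBox, Fintype.mem_piFinset]
    intro x
    have h1 := (abs_le.1 (hu x)).1
    have h2 := (abs_le.1 (hu x)).2
    have h3 : (2 : ℤ) ≤ u x := by
      have h1 : (2 : ℝ) ≤ (u x : ℝ) := by linarith
      exact_mod_cast h1
    have h4 : u x + 2 ≤ K := by
      have h1 : (u x : ℝ) + 2 ≤ K := by linarith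
      exact_mod_cast h1
    rw [Finset.mem_Icc]
    rcases hZ x with h | h | h <;> rw [h] <;> omega
  have hsyn : ∀ u : ι → ℤ, pack_syn e (fun x => u x + 2 * Z x) = pack_syn e u := by
    intro u
    unfold pack_syn
    simp_rw [add_smul]
    rw [Finset.sum_add_distrib, hker, add_zero]
  set Ag := Box.filter (fun u => pack_syn e u = g ∧ ∀ x, |2 * (u x : ℝ) - K| ≤ τ) with hAg
  have hlow : ∑ u ∈ Ag, B (fun x => u x + 2 * Z x) ≤ m := by
    have h1 : ∑ u ∈ Ag, B (fun x => u x + 2 * Z x) =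
        ∑ w ∈ Ag.image (fun u x => u x + 2 * Z x), B w := by
      rw [Finset.sum_image]
      intro a _ b _ hab
      funext x
      have := congrFun hab x
      simpa using this
    rw [h1, em]
    have h2 : ∑ u ∈ Box, B u * (if pack_syn e u = g then 1 else 0) =
        ∑ u ∈ Box.filter (fun u => pack_syn e u = g), B u := by
      rw [Finset.sum_filter]
      exact Finset.sum_congr rfl fun u _ => by split_ifs <;> simp
    rw [h2]
    refine Finset.sum_le_sum_of_subset_of_nonneg ?_ fun u _ _ => hB0 u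
    intro w hw
    rw [Finset.mem_image] at hw
    obtain ⟨u, hu, rfl⟩ := hw
    rw [hAg, Finset.mem_filter] at hu
    rw [Finset.mem_filter]
    exact ⟨hgoodbox u hu.2.2, by rw [hsyn]; exact hu.2.1⟩
  set c : (ι → ℤ) → ℝ := fun u => 1 - 4 / K * (∑ x, (2 * (u x : ℝ) - K) * Z x) - 14 / K * N
    with hc
  have hlow2 : ∑ u ∈ Ag, B u * c u ≤ m := by
    refine le_trans (Finset.sum_le_sum fun u hu => ?_) hlow
    rw [hAg, Finset.mem_filter] at hu
    exact VOR_shift hK hτ hτ3 Z hZ u hu.2.2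
  -- the bad part
  have hbound : ∀ u ∈ Box, c u ≤ 1 + 4 * N := by
    intro u hu
    rw [hBox, Fintype.mem_piFinset] at hu
    have hN0 : 0 ≤ N := Finset.sum_nonneg fun x _ => abs_nonneg _
    have h1 : -(∑ x, (2 * (u x : ℝ) - K) * Z x) ≤ K * N := by
      rw [hN, Finset.mul_sum, ← Finset.sum_neg_distrib]
      refine Finset.sum_le_sum fun x _ => ?_
      have h2 := Finset.mem_Icc.1 (hu x)
      have h3 : |2 * (u x : ℝ) - K| ≤ K := by
        have h4 : (0 : ℝ) ≤ u x := by exact_mod_cast h2.1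
        have h5 : (u x : ℝ) ≤ K := by exact_mod_cast h2.2
        rw [abs_le]; constructor <;> linarith
      calc -((2 * (u x : ℝ) - K) * Z x) ≤ |(2 * (u x : ℝ) - K) * Z x| := neg_le_abs _
        _ = |2 * (u x : ℝ) - K| * |(Z x : ℝ)| := abs_mul _ _
        _ ≤ K * |(Z x : ℝ)| := mul_le_mul_of_nonneg_right h3 (abs_nonneg _)
    have h6 : 4 / K * -(∑ x, (2 * (u x : ℝ) - K) * Z x) ≤ 4 / K * (K * N) :=
      mul_le_mul_of_nonneg_left h1 (by positivity)
    have h7 : 4 / (K : ℝ) * (K * N) = 4 * N := by field_simp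
    have h8 : 0 ≤ 14 / (K : ℝ) * N := by positivity
    simp only [hc]
    linarith
  have hsplit : ∑ u ∈ Box, B u * ((if pack_syn e u = g then 1 else 0) * c u) ≤
      m + (1 + 4 * N) * P := by
    have h1 : ∑ u ∈ Box, B u * ((if pack_syn e u = g then 1 else 0) * c u) ≤
        ∑ u ∈ Ag, B u * c u + ∑ u ∈ Box, (1 + 4 * N) * (B u *
          (if pack_syn e u = g ∧ ∃ x, τ < |2 * (u x : ℝ) - K| then 1 else 0)) := by
      rw [hAg, Finset.sum_filter, ← Finset.sum_add_distrib]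
      refine Finset.sum_le_sum fun u hu => ?_
      by_cases h2 : pack_syn e u = g
      · by_cases h3 : ∀ x, |2 * (u x : ℝ) - K| ≤ τ
        · have h4 : ¬ ∃ x, τ < |2 * (u x : ℝ) - K| := by push Not; exact h3
          simp [h2, h3, h4]
        · have h4 : ∃ x, τ < |2 * (u x : ℝ) - K| := by push Not at h3; exact h3
          rw [if_pos h2, if_neg (fun h => h3 h.2), if_pos ⟨h2, h4⟩]
          have := mul_le_mul_of_nonneg_left (hbound u hu) (hB0 u)
          linarith
      · simp [h2]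
    rw [← Finset.mul_sum, ← eP] at h1
    linarith
  have hexpand : ∑ u ∈ Box, B u * ((if pack_syn e u = g then 1 else 0) * c u) =
      m - 4 / K * ((∑ x, ((K : ℝ) * hh e K x g) * (Z x : ℝ)) * m) - 14 / K * N * m := by
    rw [eL2, Finset.mul_sum]
    have : 14 / (K : ℝ) * N * m = ∑ u ∈ Box, 14 / (K : ℝ) * N *
        (B u * (if pack_syn e u = g then 1 else 0)) := by
      rw [← Finset.mul_sum, ← em]
    rw [this]
    nth_rw 1 [em]
    rw [← Finset.sum_sub_distrib, ← Finset.sum_sub_distrib]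
    refine Finset.sum_congr rfl fun u _ => ?_
    simp only [hc]
    ring
  rw [hexpand] at hsplit
  have hP0 : 0 ≤ P := by
    rw [eP]
    refine Finset.sum_nonneg fun u _ => mul_nonneg (hB0 u) ?_
    split_ifs <;> norm_num
  have hm0 : 0 ≤ m := mu_nonneg e _ g
  set L : ℝ := (∑ x, ((K : ℝ) * hh e K x g) * (Z x : ℝ)) * m with hL
  have hmain : -L ≤ 7 / 2 * N * m + K / 4 * (1 + 4 * N) * P := by
    have h1 : 4 / (K : ℝ) * (-L) ≤ 14 / K * N * m + (1 + 4 * N) * P := by linarith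
    have h2 := mul_le_mul_of_nonneg_left h1 (by positivity : (0 : ℝ) ≤ K / 4)
    have h3 : (K : ℝ) / 4 * (4 / K * -L) = -L := by field_simp
    have h4 : (K : ℝ) / 4 * (14 / K * N * m + (1 + 4 * N) * P) =
        7 / 2 * N * m + K / 4 * (1 + 4 * N) * P := by field_simp; ring
    rw [h3, h4] at h2
    exact h2
  -- `N = 0` or `N ≥ 1`
  by_cases hZ0 : ∀ x, Z x = 0
  · have h1 : L = 0 := by
      rw [hL]
      have : ∑ x, ((K : ℝ) * hh e K x g) * (Z x : ℝ) = 0 :=
        Finset.sum_eq_zero fun x _ => by rw [hZ0 x]; simp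
      rw [this, zero_mul]
    have h2 : N = 0 := by
      rw [hN]
      exact Finset.sum_eq_zero fun x _ => by rw [hZ0 x]; simp
    rw [h1, h2]; simp
  · push Not at hZ0
    obtain ⟨x, hx⟩ := hZ0
    have h1 : 1 ≤ N := by
      have h2 : |(Z x : ℝ)| ≤ N :=
        Finset.single_le_sum (f := fun x => |(Z x : ℝ)|) (fun y _ => abs_nonneg _)
          (Finset.mem_univ x)
      have h3 : |(Z x : ℝ)| = 1 := by
        rcases hZ x with h | h | h
        · rw [h]; norm_num
        · exact absurd h hx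
        · rw [h]; norm_num
      linarith
    have h4 : (K : ℝ) / 4 * (1 + 4 * N) * P ≤ N * (5 / 4 * K * P) := by
      have h5 : (K : ℝ) / 4 * (1 + 4 * N) ≤ N * (5 / 4 * K) := by nlinarith
      have := mul_le_mul_of_nonneg_right h5 hP0
      linarith
    linarith

theorem vor_pr (e : ι → S) {K : ℕ} (hK : 64 ≤ K) {τ : ℝ} (hτ : 0 ≤ τ)
    (hτ3 : (τ + 2) ^ 3 ≤ (K : ℝ) ^ 2) (Z : ι → ℤ) (hZ : ∀ x, Z x = -1 ∨ Z x = 0 ∨ Z x = 1)
    (hker : ∑ x, (2 * Z x) • e x = 0) (g : S) :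
    |∑ x, ((K : ℝ) * hh e K x g) * (Z x : ℝ)| * mu e (fun _ => K) g ≤
      (∑ x, |(Z x : ℝ)|) * (7 / 2 * mu e (fun _ => K) g + 5 / 4 * K *
        Ex (fun ω : Om ι K => if sg e ω = g ∧ ∃ x, τ < |TT ω x| then 1 else 0)) := by
  have hm0 : 0 ≤ mu e (fun _ => K) g := mu_nonneg e _ g
  have h1 := VOR_half e hK hτ hτ3 Z hZ hker g
  have hZ' : ∀ x, (-Z) x = -1 ∨ (-Z) x = 0 ∨ (-Z) x = 1 := by
    intro x
    rw [Pi.neg_apply]
    rcases hZ x with h | h | h <;> rw [h] <;> simp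
  have hker' : ∑ x, (2 * (-Z) x) • e x = 0 := by
    have : ∀ x, (2 * (-Z) x) • e x = -((2 * Z x) • e x) := by
      intro x
      rw [Pi.neg_apply, ← neg_smul]
      congr 1
      ring
    simp_rw [this]
    rw [Finset.sum_neg_distrib, hker, neg_zero]
  have h2 := VOR_half e hK hτ hτ3 (-Z) hZ' hker' g
  have e1 : ∑ x, |((-Z) x : ℤ)| = ∑ x, |Z x| := by simp
  have e2 : ∑ x, |(((-Z) x : ℤ) : ℝ)| = ∑ x, |(Z x : ℝ)| := by
    refine Finset.sum_congr rfl fun x _ => ?_
    rw [Pi.neg_apply]; push_cast; rw [abs_neg]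
  have e3 : ∑ x, ((K : ℝ) * hh e K x g) * (((-Z) x : ℤ) : ℝ) =
      -∑ x, ((K : ℝ) * hh e K x g) * (Z x : ℝ) := by
    rw [← Finset.sum_neg_distrib]
    refine Finset.sum_congr rfl fun x _ => ?_
    rw [Pi.neg_apply]; push_cast; ring
  rw [e2, e3] at h2
  rcases le_total 0 (∑ x, ((K : ℝ) * hh e K x g) * (Z x : ℝ)) with h | h
  · rw [abs_of_nonneg h]; linarith
  · rw [abs_of_nonpos h]; linarith

end Pool.Agent.BF

namespace Pool.Agent.BF

theorem vor : type_of% @vor_pr := @vor_pr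

end Pool.Agent.BF
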