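import Pool.Agent.Lib_helper92.BG.Defs
import Pool.Agent.Lib_helper92.BGA.TAIL
import Pool.Agent.Lib_helper92.BGA.VOR

set_option linter.unusedSectionVars false

/-! Block BETA (helper38). Cites vor, tail. -/

namespace Pool.Agent.BF

open Finset

variable {ι : Type} [Fintype ι] [DecidableEq ι] {S : Type} [AddCommGroup S] [Fintype S]
  [DecidableEq S]

theorem beta_pr (e : ι → S) {K : ℕ} (hK : 64 ≤ K) {τ : ℝ} (hτ : 0 ≤ τ)
    (hτ3 : (τ + 2) ^ 3 ≤ (K : ℝ) ^ 2) : ∃ β : S → ℝ, (∀ g, 0 ≤ β g) ∧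
    Ex (fun ω : Om ι K => β (sg e ω)) ≤ 2 * Fintype.card ι * Real.exp (-(τ ^ 2 / (2 * K))) ∧
    ∀ (ω : Om ι K) (Z : ι → ℤ), (∀ x, Z x = -1 ∨ Z x = 0 ∨ Z x = 1) →
      ∑ x, (2 * Z x) • e x = 0 →
      |∑ x, ((K : ℝ) * hh e K x (sg e ω)) * (Z x : ℝ)| ≤
        (∑ x, |(Z x : ℝ)|) * (7 / 2 + 5 / 4 * K * β (sg e ω)) := by
  classical
  set pb : S → ℝ := fun g =>
    Ex (fun ω : Om ι K => if sg e ω = g ∧ ∃ x, τ < |TT ω x| then 1 else 0) with hpb
  have hpb0 : ∀ g, 0 ≤ pb g := by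
    intro g
    simp only [hpb, Ex]
    refine div_nonneg (Finset.sum_nonneg fun ω _ => ?_) (Nat.cast_nonneg _)
    split_ifs
    · exact zero_le_one
    · exact le_rfl
  have hmu0 : ∀ g, 0 ≤ mu e (fun _ => K) g := by
    intro g
    rw [mu_om]
    positivity
  refine ⟨fun g => pb g / mu e (fun _ => K) g, fun g => div_nonneg (hpb0 g) (hmu0 g), ?_, ?_⟩
  · rw [ex_sg e K (fun g => pb g / mu e (fun _ => K) g)]
    have h1 : ∑ g, pb g / mu e (fun _ => K) g * mu e (fun _ => K) g ≤ ∑ g, pb g := by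
      refine Finset.sum_le_sum fun g _ => ?_
      rcases eq_or_ne (mu e (fun _ => K) g) 0 with h | h
      · rw [h, mul_zero]
        exact hpb0 g
      · rw [div_mul_cancel₀ _ h]
    have h2 : ∑ g, pb g = Ex (fun ω : Om ι K => if ∃ x, τ < |TT ω x| then 1 else 0) := by
      simp only [hpb, Ex]
      rw [← Finset.sum_div, Finset.sum_comm]
      congr 1
      refine Finset.sum_congr rfl fun ω _ => ?_
      by_cases h : ∃ x, τ < |TT ω x|
      · simp only [h, and_true, if_true]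
        rw [Finset.sum_ite_eq]
        simp
      · simp [h]
    rw [h2] at h1
    exact h1.trans (tail (by omega) hτ)
  · intro ω Z hZ hker
    have h1 := vor e hK hτ hτ3 Z hZ hker (sg e ω)
    have hpos : 0 < mu e (fun _ => K) (sg e ω) := by
      rw [mu_om]
      have h2 : 0 < (univ.filter fun ω' : Om ι K => sg e ω' = sg e ω).card :=
        Finset.card_pos.2 ⟨ω, by simp⟩
      have h3 : 0 < Fintype.card (Om ι K) := Fintype.card_pos
      positivity
    rw [← mul_le_mul_iff_left₀ hpos]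
    refine h1.trans (le_of_eq ?_)
    simp only [hpb]
    field_simp

end Pool.Agent.BF

namespace Pool.Agent.BF

theorem beta : type_of% @beta_pr := @beta_pr

end Pool.Agent.BF
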