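import Pool.Agent.Lib_helper92.BG.Defs

set_option linter.unusedSectionVars false

/-! Block BPR (helper48): shifts of the binomial law. -/

namespace Pool.Agent.BF

open Finset

theorem bpr_ratio {K t s : ℝ} (hK : 0 < K) (ht : K ≤ 4 * t) (hs0 : 0 ≤ s) (hs : 8 * s ≤ K) :
    Real.exp (-(8 * s / K)) * t ≤ t - s := by
  have hts : 0 < t - s := by linarith
  have h1 : 1 + 8 * s / K ≤ Real.exp (8 * s / K) := by
    have := Real.add_one_le_exp (8 * s / K)
    linarith
  have h2 : t ≤ Real.exp (8 * s / K) * (t - s) := by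
    have h3 : (1 + 8 * s / K) * (t - s) ≤ Real.exp (8 * s / K) * (t - s) :=
      mul_le_mul_of_nonneg_right h1 hts.le
    have h4 : t ≤ (1 + 8 * s / K) * (t - s) := by
      have h5 : 1 ≤ 8 * (t - s) / K := by
        rw [le_div_iff₀ hK]
        linarith
      have h6 : (1 + 8 * s / K) * (t - s) = (t - s) + s * (8 * (t - s) / K) := by
        field_simp
      rw [h6]
      nlinarith
    linarith
  rw [Real.exp_neg]
  rw [inv_mul_le_iff₀ (Real.exp_pos _)]
  exact h2

theorem bpr_choose {K q j : ℕ} (hqK : 16 * q ≤ K) (h1 : K ≤ 4 * j) (h2 : 4 * j ≤ 3 * K) :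
    ∀ i : ℕ, i ≤ q → Real.exp (-(16 * (i : ℝ) ^ 2 / K)) * (K.choose j : ℝ) ^ 2 ≤
      (K.choose (j - i) : ℝ) * K.choose (j + i) := by
  intro i
  induction i with
  | zero =>
    intro _
    simp
    nlinarith
  | succ i ih =>
    intro hi
    have ih' := ih (by omega)
    have hKp : 0 < K := by omega
    have hK0 : (0 : ℝ) < K := by exact_mod_cast hKp
    have hij : i + 1 ≤ j := by omega
    obtain ⟨l, hl⟩ : ∃ l, j = l + (i + 1) := ⟨j - (i + 1), by omega⟩
    have e1 : j - (i + 1) = l := by omega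
    have e2 : j - i = l + 1 := by omega
    rw [e1]
    rw [e2] at ih'
    have c1 : (K.choose (l + 1) : ℝ) * (l + 1) = K.choose l * (K - l) := by
      have h3 := Nat.choose_succ_right_eq K l
      have hle : l ≤ K := by omega
      have h4 : ((K.choose (l + 1) * (l + 1) : ℕ) : ℝ) = ((K.choose l * (K - l) : ℕ) : ℝ) := by
        rw [h3]
      push_cast [Nat.cast_sub hle] at h4
      exact h4
    have c2 : (K.choose (j + (i + 1)) : ℝ) * (j + i + 1) = K.choose (j + i) * (K - (j + i)) := by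
      have h3 := Nat.choose_succ_right_eq K (j + i)
      have hle : j + i ≤ K := by omega
      have h4 : ((K.choose (j + i + 1) * (j + i + 1) : ℕ) : ℝ) =
          ((K.choose (j + i) * (K - (j + i)) : ℕ) : ℝ) := by
        rw [h3]
      push_cast [Nat.cast_sub hle] at h4
      exact h4
    have hi' : 16 * ((i : ℝ) + 1) ≤ K := by
      have : 16 * (i + 1) ≤ K := by omega
      exact_mod_cast this
    have hj1 : (K : ℝ) ≤ 4 * j := by exact_mod_cast h1
    have hj2 : 4 * (j : ℝ) ≤ 3 * K := by exact_mod_cast h2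
    have hjl : (j : ℝ) = l + (i + 1) := by exact_mod_cast hl
    have hi0 : (0 : ℝ) ≤ i := Nat.cast_nonneg _
    -- the two ratios
    have r1 := bpr_ratio (K := K) (t := (j : ℝ) + i + 1) (s := 2 * i + 1) hK0 (by linarith)
      (by positivity) (by linarith)
    have r2 := bpr_ratio (K := K) (t := (K : ℝ) - l) (s := 2 * i + 1) hK0 (by linarith)
      (by positivity) (by linarith)
    set E := Real.exp (-(8 * (2 * (i : ℝ) + 1) / K)) with hE
    have hE0 : 0 < E := Real.exp_pos _
    have hEE : Real.exp (-(16 * ((i + 1 : ℕ) : ℝ) ^ 2 / K)) =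
        Real.exp (-(16 * (i : ℝ) ^ 2 / K)) * (E * E) := by
      rw [hE, ← Real.exp_add, ← Real.exp_add]
      congr 1
      push_cast
      field_simp
      ring
    have t1 : (j : ℝ) + i + 1 - (2 * i + 1) = l + 1 := by rw [hjl]; ring
    have t2 : (K : ℝ) - l - (2 * i + 1) = K - (j + i) := by rw [hjl]; ring
    rw [t1] at r1
    rw [t2] at r2
    set A := (K.choose l : ℝ) with hA
    set B := (K.choose (l + 1) : ℝ) with hB
    set C := (K.choose (j + i) : ℝ) with hC
    set D := (K.choose (j + (i + 1)) : ℝ) with hD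
    have hA0 : 0 ≤ A := Nat.cast_nonneg _
    have hB0 : 0 ≤ B := Nat.cast_nonneg _
    have hC0 : 0 ≤ C := Nat.cast_nonneg _
    have hD0 : 0 ≤ D := Nat.cast_nonneg _
    have p1 : (0 : ℝ) < (j : ℝ) + i + 1 := by positivity
    have p2 : (0 : ℝ) < (K : ℝ) - l := by linarith
    have h5 : A * D * (((K : ℝ) - l) * (j + i + 1)) = B * C * ((l + 1) * (K - (j + i))) := by
      calc A * D * (((K : ℝ) - l) * (j + i + 1)) = (A * (K - l)) * (D * (j + i + 1)) := by ring
        _ = (B * (l + 1)) * (C * (K - (j + i))) := by rw [← c1, c2]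
        _ = _ := by ring
    have h6 : (E * E) * (((K : ℝ) - l) * (j + i + 1)) ≤ (l + 1) * (K - (j + i)) := by
      calc (E * E) * (((K : ℝ) - l) * (j + i + 1)) =
            (E * ((j : ℝ) + i + 1)) * (E * ((K : ℝ) - l)) := by ring
        _ ≤ (l + 1) * (K - (j + i)) := by
            apply mul_le_mul r1 r2 (by positivity) (by positivity)
    rw [hEE]
    have h7 : (Real.exp (-(16 * (i : ℝ) ^ 2 / K)) * (E * E) * (K.choose j : ℝ) ^ 2) *
        (((K : ℝ) - l) * (j + i + 1)) ≤ A * D * (((K : ℝ) - l) * (j + i + 1)) := by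
      rw [h5]
      calc (Real.exp (-(16 * (i : ℝ) ^ 2 / K)) * (E * E) * (K.choose j : ℝ) ^ 2) *
            (((K : ℝ) - l) * (j + i + 1)) =
            (Real.exp (-(16 * (i : ℝ) ^ 2 / K)) * (K.choose j : ℝ) ^ 2) *
              ((E * E) * (((K : ℝ) - l) * (j + i + 1))) := by ring
        _ ≤ (B * C) * ((l + 1) * (K - (j + i))) := by
            apply mul_le_mul ih' h6 (by positivity) (by positivity)
    exact le_of_mul_le_mul_right h7 (by positivity)

theorem bpair_pr {K q : ℕ} (hq : 1 ≤ q) (hqK : 16 * q ≤ K) {j X : ℤ} (h1 : (K : ℤ) ≤ 4 * j)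
    (h2 : 4 * j ≤ 3 * (K : ℤ)) (hX : X = 1 ∨ X = -1) :
    Real.exp (-(16 * (q : ℝ) ^ 2 / K)) ^ 2 * pack_b K j ^ 2 ≤
      pack_b K (j - q * X) * pack_b K (j + q * X) := by
  obtain ⟨i, rfl⟩ : ∃ i : ℕ, j = (i : ℤ) := ⟨j.toNat, by omega⟩
  have hh := bpr_choose (K := K) (q := q) (j := i) hqK (by omega) (by omega) q le_rfl
  have hiq : q ≤ i := by omega
  have a1 : (i : ℤ) - q * 1 = ((i - q : ℕ) : ℤ) := by
    push_cast [Nat.cast_sub hiq]
    ring
  have a2 : (i : ℤ) + q * 1 = ((i + q : ℕ) : ℤ) := by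
    push_cast
    ring
  have key : Real.exp (-(16 * (q : ℝ) ^ 2 / K)) ^ 2 * bw K i ^ 2 ≤ bw K (i - q) * bw K (i + q) := by
    unfold bw
    rw [div_pow, div_mul_div_comm, ← pow_two ((2 : ℝ) ^ K), mul_div_assoc']
    apply div_le_div_of_nonneg_right _ (by positivity)
    refine le_trans ?_ hh
    apply mul_le_mul_of_nonneg_right _ (by positivity)
    have hE0 : 0 < Real.exp (-(16 * (q : ℝ) ^ 2 / K)) := Real.exp_pos _
    have hE1 : Real.exp (-(16 * (q : ℝ) ^ 2 / K)) ≤ 1 := by
      rw [Real.exp_le_one_iff, neg_nonpos]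
      positivity
    nlinarith
  rcases hX with rfl | rfl
  · rw [a1, a2, pack_b_nat, pack_b_nat, pack_b_nat]
    exact key
  · have b1 : (i : ℤ) - q * (-1) = (i : ℤ) + q * 1 := by ring
    have b2 : (i : ℤ) + q * (-1) = (i : ℤ) - q * 1 := by ring
    rw [b1, b2, a1, a2, pack_b_nat, pack_b_nat, pack_b_nat, mul_comm (bw K (i + q))]
    exact key

end Pool.Agent.BF

namespace Pool.Agent.BF

theorem bpair : type_of% @bpair_pr := @bpair_pr

end Pool.Agent.BF
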