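import Pool.Agent.Lib_helper92.BG.Defs

set_option linter.unusedSectionVars false

/-!
# BG block NZ: the noise operator
-/

namespace Pool.Agent.BF

open Finset

section nz

variable {J : Type} [Fintype J] [DecidableEq J]

lemma nz_bt_abs (b : Bool) : |bt b| = 1 := by cases b <;> simp [bt]

lemma nz_sum_prod (g : J → Bool → ℝ) :
    ∑ ω : J → Bool, ∏ j, g j (ω j) = ∏ j, (g j true + g j false) := by
  have h := (Finset.prod_univ_sum (fun _ : J => (univ : Finset Bool)) g).symm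
  rw [Fintype.piFinset_univ] at h
  rw [h]
  refine Finset.prod_congr rfl fun j _ => ?_
  simp

theorem tn_mono_pr {ρ : ℝ} (hρ : |ρ| ≤ 1) (F G : (J → Bool) → ℝ) (h : ∀ ω, F ω ≤ G ω)
    (ω : J → Bool) : Tn ρ F ω ≤ Tn ρ G ω := by
  unfold Tn Ex
  refine div_le_div_of_nonneg_right ?_ (Nat.cast_nonneg _)
  refine Finset.sum_le_sum fun ω' _ => ?_
  refine mul_le_mul_of_nonneg_right (h ω') ?_
  refine Finset.prod_nonneg fun j _ => ?_
  have h1 : |ρ * (bt (ω j) * bt (ω' j))| ≤ 1 := by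
    rw [abs_mul, abs_mul, nz_bt_abs, nz_bt_abs]; simpa using hρ
  linarith [(abs_le.1 h1).1]

lemma nz_kernel (ρ : ℝ) (A : Finset J) (ω' : J → Bool) :
    ∑ ω : J → Bool, (∏ j, (1 + ρ * (bt (ω j) * bt (ω' j)))) * fc_ch A ω =
      2 ^ Fintype.card J * (ρ ^ A.card * fc_ch A ω') := by
  have h1 : ∀ ω : J → Bool, (∏ j, (1 + ρ * (bt (ω j) * bt (ω' j)))) * fc_ch A ω =
      ∏ j, ((1 + ρ * (bt (ω j) * bt (ω' j))) * (if j ∈ A then bt (ω j) else 1)) := by
    intro ω
    rw [Finset.prod_mul_distrib]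
    congr 1
    unfold fc_ch
    rw [Finset.prod_ite_mem]
    simp
  rw [Finset.sum_congr rfl fun ω _ => h1 ω]
  rw [nz_sum_prod (fun j b => (1 + ρ * (bt b * bt (ω' j))) * (if j ∈ A then bt b else 1))]
  have h2 : ∀ j, ((1 + ρ * (bt true * bt (ω' j))) * (if j ∈ A then bt true else 1) +
      (1 + ρ * (bt false * bt (ω' j))) * (if j ∈ A then bt false else 1)) =
      2 * (if j ∈ A then ρ * bt (ω' j) else 1) := by
    intro j
    have e1 : bt true = 1 := by simp [bt]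
    have e2 : bt false = -1 := by simp [bt]
    rw [e1, e2]
    by_cases hj : j ∈ A
    · simp only [hj, if_true]; ring
    · simp only [hj, if_false]; ring
  rw [Finset.prod_congr rfl fun j _ => h2 j, Finset.prod_mul_distrib, Finset.prod_const,
    Finset.card_univ, Finset.prod_ite_mem]
  congr 1
  rw [Finset.univ_inter, Finset.prod_mul_distrib, Finset.prod_const]
  rfl

lemma nz_kernel' (ρ : ℝ) (ω : J → Bool) :
    ∑ ω' : J → Bool, (∏ j, (1 + ρ * (bt (ω j) * bt (ω' j)))) = 2 ^ Fintype.card J := by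
  have h := nz_kernel ρ ∅ ω
  simp only [fc_ch, Finset.prod_empty, mul_one, Finset.card_empty, pow_zero] at h
  rw [← h]
  refine Finset.sum_congr rfl fun ω' _ => Finset.prod_congr rfl fun j _ => ?_
  ring

theorem tn_const_pr (ρ c : ℝ) (ω : J → Bool) : Tn ρ (fun _ => c) ω = c := by
  unfold Tn Ex
  rw [← Finset.mul_sum, nz_kernel', fc_card]
  have : (2 : ℝ) ^ Fintype.card J ≠ 0 := by positivity
  field_simp

theorem tn_lin_pr {β : Type} (s : Finset β) (ρ : ℝ) (c : β → ℝ) (F : β → (J → Bool) → ℝ)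
    (ω : J → Bool) : Tn ρ (fun ω' => ∑ b ∈ s, c b * F b ω') ω = ∑ b ∈ s, c b * Tn ρ (F b) ω := by
  unfold Tn Ex
  have h1 : ∀ b ∈ s, c b * ((∑ ω' : J → Bool, F b ω' * ∏ j, (1 + ρ * (bt (ω j) * bt (ω' j)))) /
      (Fintype.card (J → Bool) : ℝ)) = (∑ ω' : J → Bool, c b * F b ω' *
        ∏ j, (1 + ρ * (bt (ω j) * bt (ω' j)))) / (Fintype.card (J → Bool) : ℝ) := by
    intro b _
    rw [mul_div_assoc', Finset.mul_sum]
    congr 1
    refine Finset.sum_congr rfl fun ω' _ => ?_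
    ring
  rw [Finset.sum_congr rfl h1, ← Finset.sum_div, Finset.sum_comm]
  congr 1
  refine Finset.sum_congr rfl fun ω' _ => ?_
  simp only [Finset.sum_mul]

theorem tn_fc_pr (ρ : ℝ) (F : (J → Bool) → ℝ) (A : Finset J) :
    Ex (fun ω => Tn ρ F ω * fc_ch A ω) = ρ ^ A.card * Ex (fun ω => F ω * fc_ch A ω) := by
  have hN : (2 : ℝ) ^ Fintype.card J ≠ 0 := by positivity
  unfold Tn Ex
  rw [fc_card]
  have h1 : ∀ ω : J → Bool, (∑ ω' : J → Bool, F ω' * ∏ j, (1 + ρ * (bt (ω j) * bt (ω' j)))) /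
      (2 : ℝ) ^ Fintype.card J * fc_ch A ω =
      (∑ ω' : J → Bool, F ω' * ((∏ j, (1 + ρ * (bt (ω j) * bt (ω' j)))) * fc_ch A ω)) /
        (2 : ℝ) ^ Fintype.card J := by
    intro ω
    rw [div_mul_eq_mul_div, Finset.sum_mul]
    congr 1
    refine Finset.sum_congr rfl fun ω' _ => ?_
    ring
  rw [Finset.sum_congr rfl fun ω _ => h1 ω, ← Finset.sum_div, Finset.sum_comm]
  have h2 : ∀ ω' : J → Bool, ∑ ω : J → Bool, F ω' * ((∏ j, (1 + ρ * (bt (ω j) * bt (ω' j)))) *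
      fc_ch A ω) = 2 ^ Fintype.card J * (ρ ^ A.card * (F ω' * fc_ch A ω')) := by
    intro ω'
    rw [← Finset.mul_sum, nz_kernel]
    ring
  rw [Finset.sum_congr rfl fun ω' _ => h2 ω', ← Finset.mul_sum, ← Finset.mul_sum]
  field_simp

theorem tn_ex_pr (ρ : ℝ) (F : (J → Bool) → ℝ) : Ex (fun ω => Tn ρ F ω) = Ex F := by
  have h := tn_fc_pr ρ F ∅
  simpa [fc_ch] using h

end nz

end Pool.Agent.BF

namespace Pool.Agent.BF

theorem tn_mono : type_of% @tn_mono_pr := @tn_mono_pr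

theorem tn_const : type_of% @tn_const_pr := @tn_const_pr

theorem tn_lin : type_of% @tn_lin_pr := @tn_lin_pr

theorem tn_ex : type_of% @tn_ex_pr := @tn_ex_pr

theorem tn_fc : type_of% @tn_fc_pr := @tn_fc_pr

end Pool.Agent.BF
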