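import Pool.Agent.Lib_helper92.BG.Defs
import Pool.Agent.Lib_helper92.BGA.NZ

set_option linter.unusedSectionVars false

/-!
# BG block EXT: extraction of the linear part of a function
-/

namespace Pool.Agent.BF

open Finset

section ext

variable {J : Type} [Fintype J] [DecidableEq J]

lemma ext_sum_prod (g : J → Bool → ℝ) :
    ∑ ω : J → Bool, ∏ j, g j (ω j) = ∏ j, (g j true + g j false) := by
  have h := (Finset.prod_univ_sum (fun _ : J => (univ : Finset Bool)) g).symm
  rw [Fintype.piFinset_univ] at h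
  rw [h]
  refine Finset.prod_congr rfl fun j _ => ?_
  simp

/-- Orthogonality of the characters. -/
lemma ext_orth (j : J) (A : Finset J) :
    Ex (fun ω : J → Bool => bt (ω j) * fc_ch A ω) = if A = {j} then 1 else 0 := by
  unfold Ex
  rw [fc_card]
  have h1 : ∀ ω : J → Bool, bt (ω j) * fc_ch A ω =
      ∏ i, ((if i = j then bt (ω i) else 1) * (if i ∈ A then bt (ω i) else 1)) := by
    intro ω
    rw [Finset.prod_mul_distrib, Finset.prod_ite_mem, Finset.univ_inter,
      Finset.prod_ite_eq' univ j (fun i => bt (ω i)), if_pos (mem_univ j)]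
    rfl
  rw [Finset.sum_congr rfl fun ω _ => h1 ω,
    ext_sum_prod (fun i b => (if i = j then bt b else 1) * (if i ∈ A then bt b else 1))]
  have e1 : bt true = 1 := by simp [bt]
  have e2 : bt false = -1 := by simp [bt]
  simp only [e1, e2]
  split_ifs with hA
  · subst hA
    have : ∀ i ∈ (univ : Finset J), ((if i = j then (1 : ℝ) else 1) *
        (if i ∈ ({j} : Finset J) then 1 else 1) +
        (if i = j then -1 else 1) * (if i ∈ ({j} : Finset J) then -1 else 1)) = 2 := by
      intro i _
      by_cases h : i = j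
      · simp [h]; norm_num
      · simp [h]; norm_num
    rw [Finset.prod_congr rfl this, Finset.prod_const, Finset.card_univ]
    have : (2 : ℝ) ^ Fintype.card J ≠ 0 := by positivity
    field_simp
  · rw [div_eq_zero_iff]
    left
    obtain ⟨i, hi⟩ : ∃ i, ¬ (i ∈ A ↔ i = j) := by
      by_contra hc
      push Not at hc
      apply hA
      ext i
      rw [hc i, mem_singleton]
    apply Finset.prod_eq_zero (mem_univ i)
    by_cases h : i = j
    · have : i ∉ A := by
        intro h'; exact hi ⟨fun _ => h, fun _ => h'⟩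
      simp only [h, if_true]
      rw [h] at this
      simp [this]
    · have : i ∈ A := by
        by_contra h'; exact hi ⟨fun h2 => absurd h2 h', fun h2 => absurd h2 h⟩
      simp [h, this]

lemma ext_ex_sum {β : Type} (s : Finset β) (F : β → (J → Bool) → ℝ) :
    Ex (fun ω => ∑ b ∈ s, F b ω) = ∑ b ∈ s, Ex (F b) := by
  unfold Ex
  rw [Finset.sum_comm, Finset.sum_div]

lemma ext_ex_smul (a : ℝ) (F : (J → Bool) → ℝ) :
    Ex (fun ω => a * F ω) = a * Ex F := by
  unfold Ex
  rw [← Finset.mul_sum, mul_div_assoc]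

lemma ext_ex_sub (F G : (J → Bool) → ℝ) :
    Ex (fun ω => F ω - G ω) = Ex F - Ex G := by
  unfold Ex
  rw [Finset.sum_sub_distrib, sub_div]

theorem ext_lin_pr (d : ℕ) (hd : 1 ≤ d) {m : ℕ} (ρ c : Fin m → ℝ) (hρ : ∀ k, |ρ k| ≤ 1)
    (hc : ∑ k, |c k| ≤ 2 * d)
    (hker : ∀ j, 1 ≤ j → j ≤ d → ∑ k, c k * ρ k ^ j = if j = 1 then 1 else 0)
    (F F₁ : (J → Bool) → ℝ) (h0 : Ex F = 0)
    (hF₁ : ∀ ω, F₁ ω = ∑ j, Ex (fun ω' => F ω' * bt (ω' j)) * bt (ω j)) :
    Ex (fun ω => (∑ k, c k * Tn (ρ k / 2) F ω - F₁ ω / 2) ^ 2) ≤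
      (2 * d) ^ 2 * (1 / 4) ^ (d + 1) * Ex (fun ω => F ω ^ 2) := by
  rw [← fc_parseval, ← fc_parseval, Finset.mul_sum]
  refine Finset.sum_le_sum fun A _ => ?_
  set a : ℝ := Ex (fun ω => F ω * fc_ch A ω) with ha
  -- coefficient of the linear part
  have h1 : Ex (fun ω => F₁ ω * fc_ch A ω) = if A.card = 1 then a else 0 := by
    have e1 : (fun ω => F₁ ω * fc_ch A ω) = fun ω => ∑ j,
        Ex (fun ω' => F ω' * bt (ω' j)) * (bt (ω j) * fc_ch A ω) := by
      funext ω
      rw [hF₁, Finset.sum_mul]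
      refine Finset.sum_congr rfl fun j _ => ?_
      ring
    rw [e1, ext_ex_sum]
    have e2 : ∀ j ∈ (univ : Finset J), Ex (fun ω => Ex (fun ω' => F ω' * bt (ω' j)) *
        (bt (ω j) * fc_ch A ω)) = if A = {j} then Ex (fun ω' => F ω' * bt (ω' j)) else 0 := by
      intro j _
      rw [ext_ex_smul, ext_orth]
      split_ifs <;> simp
    rw [Finset.sum_congr rfl e2]
    split_ifs with hA
    · obtain ⟨j, rfl⟩ := Finset.card_eq_one.1 hA
      have e3 : ∀ i ∈ (univ : Finset J), (if ({j} : Finset J) = {i} then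
          Ex (fun ω' => F ω' * bt (ω' i)) else 0) = if j = i then
          Ex (fun ω' => F ω' * bt (ω' i)) else 0 := by
        intro i _
        simp only [Finset.singleton_inj]
      rw [Finset.sum_congr rfl e3, Finset.sum_ite_eq, if_pos (mem_univ j), ha]
      simp [fc_ch]
    · apply Finset.sum_eq_zero
      intro i _
      rw [if_neg]
      rintro rfl
      exact hA (card_singleton i)
  have h2 : Ex (fun ω => (∑ k, c k * Tn (ρ k / 2) F ω - F₁ ω / 2) * fc_ch A ω) =
      (∑ k, c k * (ρ k / 2) ^ A.card) * a - (if A.card = 1 then a else 0) / 2 := by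
    have e1 : (fun ω => (∑ k, c k * Tn (ρ k / 2) F ω - F₁ ω / 2) * fc_ch A ω) =
        fun ω => (∑ k, c k * (Tn (ρ k / 2) F ω * fc_ch A ω)) -
          (1 / 2) * (F₁ ω * fc_ch A ω) := by
      funext ω
      rw [sub_mul, Finset.sum_mul]
      congr 1
      · refine Finset.sum_congr rfl fun k _ => ?_
        ring
      · ring
    rw [e1, ext_ex_sub, ext_ex_sum, ext_ex_smul, h1, Finset.sum_mul]
    congr 1
    · refine Finset.sum_congr rfl fun k _ => ?_
      rw [ext_ex_smul, tn_fc]
      ring
    · ring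
  rw [h2]
  have ha2 : 0 ≤ a ^ 2 := sq_nonneg a
  rcases Nat.eq_zero_or_pos A.card with hA0 | hApos
  · have hA : A = ∅ := Finset.card_eq_zero.1 hA0
    have : a = 0 := by rw [ha, hA, ← h0]; simp [fc_ch]
    rw [this]
    simp
  · by_cases hAd : A.card ≤ d
    · have e1 : ∑ k, c k * (ρ k / 2) ^ A.card = (if A.card = 1 then 1 else 0) / 2 ^ A.card := by
        rw [← hker _ hApos hAd, Finset.sum_div]
        refine Finset.sum_congr rfl fun k _ => ?_
        rw [div_pow, mul_div_assoc]
      rw [e1]
      have e2 : ((if A.card = 1 then (1 : ℝ) else 0) / 2 ^ A.card * a -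
          (if A.card = 1 then a else 0) / 2) = 0 := by
        split_ifs with h
        · rw [h]; ring
        · simp
      rw [e2]
      have : (0 : ℝ) ^ 2 = 0 := by norm_num
      rw [this]
      positivity
    · push Not at hAd
      have e1 : |∑ k, c k * (ρ k / 2) ^ A.card| ≤ 2 * d * (1 / 2) ^ (d + 1) := by
        refine (Finset.abs_sum_le_sum_abs _ _).trans ?_
        have : ∀ k ∈ (univ : Finset (Fin m)), |c k * (ρ k / 2) ^ A.card| ≤
            |c k| * (1 / 2) ^ (d + 1) := by
          intro k _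
          rw [abs_mul, abs_pow, abs_div, abs_two]
          refine mul_le_mul_of_nonneg_left ?_ (abs_nonneg _)
          calc (|ρ k| / 2) ^ A.card ≤ (1 / 2 : ℝ) ^ A.card := by
                refine pow_le_pow_left₀ (by positivity) ?_ _
                linarith [hρ k]
            _ ≤ (1 / 2 : ℝ) ^ (d + 1) :=
                pow_le_pow_of_le_one (by norm_num) (by norm_num) hAd
        refine (Finset.sum_le_sum this).trans ?_
        rw [← Finset.sum_mul]
        exact mul_le_mul_of_nonneg_right hc (by positivity)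
      rw [if_neg (by omega), zero_div, sub_zero, mul_pow]
      refine mul_le_mul_of_nonneg_right ?_ ha2
      rw [← sq_abs]
      refine (pow_le_pow_left₀ (abs_nonneg _) e1 2).trans (le_of_eq ?_)
      rw [mul_pow, ← pow_mul, mul_comm (d + 1) 2, pow_mul]
      norm_num

end ext

end Pool.Agent.BF

namespace Pool.Agent.BF

theorem ext_lin : type_of% @ext_lin_pr := @ext_lin_pr

end Pool.Agent.BF
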