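import Pool.Agent.Lib_helper92.BG.Defs

set_option linter.unusedSectionVars false

/-!
# BG block KER: extraction of the linear coefficient
-/

namespace Pool.Agent.BF

open Finset

/-- `e^{i l u}` -/
noncomputable def ker_e (l : ℤ) (u : ℝ) : ℂ := Complex.exp ((l : ℂ) * u * Complex.I)

lemma ker_e_add (l m : ℤ) (u : ℝ) : ker_e (l + m) u = ker_e l u * ker_e m u := by
  unfold ker_e
  rw [← Complex.exp_add]
  congr 1
  push_cast
  ring

lemma ker_e_pow (l : ℤ) (n : ℕ) (u : ℝ) : ker_e l u ^ n = ker_e (n * l) u := by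
  unfold ker_e
  rw [← Complex.exp_nat_mul]
  congr 1
  push_cast
  ring

lemma ker_e_conj (l : ℤ) (u : ℝ) : (starRingEnd ℂ) (ker_e l u) = ker_e (-l) u := by
  unfold ker_e
  rw [← Complex.exp_conj]
  congr 1
  simp

lemma ker_orth {M : ℕ} (hM : 0 < M) (a : ℤ) (ha : |a| < M) :
    ∑ k ∈ range M, ker_e a (2 * Real.pi * k / M) = if a = 0 then (M : ℂ) else 0 := by
  have hM' : (M : ℂ) ≠ 0 := by exact_mod_cast hM.ne'
  have hpi : (Real.pi : ℂ) ≠ 0 := by exact_mod_cast Real.pi_ne_zero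
  split_ifs with h
  · subst h
    simp [ker_e]
  · set x : ℂ := Complex.exp ((a : ℂ) * (2 * Real.pi / M) * Complex.I) with hxdef
    have hx : ∀ k : ℕ, ker_e a (2 * Real.pi * k / M) = x ^ k := by
      intro k
      rw [hxdef, ← Complex.exp_nat_mul]
      unfold ker_e
      congr 1
      push_cast
      ring
    rw [Finset.sum_congr rfl fun k _ => hx k]
    have hxM : x ^ M = 1 := by
      rw [hxdef, ← Complex.exp_nat_mul, Complex.exp_eq_one_iff]
      refine ⟨a, ?_⟩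
      field_simp
    have hx1 : x ≠ 1 := by
      intro hx1
      rw [hxdef, Complex.exp_eq_one_iff] at hx1
      obtain ⟨n, hn⟩ := hx1
      have h1 : (a : ℂ) = n * M := by
        have hI : Complex.I ≠ 0 := Complex.I_ne_zero
        have h2 : (a : ℂ) * (2 * Real.pi / M) * Complex.I =
            (n * M) * (2 * Real.pi / M) * Complex.I := by
          rw [hn]
          field_simp
        have h3 : (2 * Real.pi / M : ℂ) * Complex.I ≠ 0 := by
          apply mul_ne_zero _ hI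
          apply div_ne_zero _ hM'
          exact mul_ne_zero two_ne_zero hpi
        rw [mul_assoc, mul_assoc] at h2
        exact mul_right_cancel₀ h3 h2
      have h2 : a = n * M := by exact_mod_cast h1
      have h3 : n ≠ 0 := by
        rintro rfl
        exact h (by simpa using h2)
      have h4 : 1 ≤ |n| := Int.one_le_abs h3
      rw [h2, abs_mul, Nat.abs_cast] at ha
      have h5 : (0 : ℤ) < M := by exact_mod_cast hM
      nlinarith
    rw [geom_sum_eq hx1, hxM, sub_self, zero_div]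

lemma ker_count (d s : ℕ) (hs : s ≤ d) :
    ∑ a ∈ range d, ∑ b ∈ range d, (if a + s = b then (1 : ℂ) else 0) = (d : ℂ) - s := by
  have h : ∀ a ∈ range d, ∑ b ∈ range d, (if a + s = b then (1 : ℂ) else 0) =
      if a + s < d then 1 else 0 := by
    intro a _
    rw [Finset.sum_ite_eq]
    simp
  rw [sum_congr rfl h, Finset.sum_boole]
  have h2 : (range d).filter (fun a => a + s < d) = range (d - s) := by
    ext a
    simp only [mem_filter, mem_range]
    omega
  rw [h2, card_range, Nat.cast_sub hs]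

/-- the number of `(a,b)` with `a - b + t = 0` -/
noncomputable def ker_E (d : ℕ) (t : ℤ) : ℂ :=
  ∑ a ∈ range d, ∑ b ∈ range d, (if (a : ℤ) - b + t = 0 then (1 : ℂ) else 0)

lemma ker_E_nonneg (d s : ℕ) (hs : s ≤ d) : ker_E d s = (d : ℂ) - s := by
  rw [← ker_count d s hs]
  unfold ker_E
  refine sum_congr rfl fun a _ => sum_congr rfl fun b _ => ?_
  congr 1
  apply propext
  omega

lemma ker_E_nonpos (d s : ℕ) (hs : s ≤ d) : ker_E d (-s) = (d : ℂ) - s := by
  rw [← ker_count d s hs]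
  unfold ker_E
  rw [sum_comm]
  refine sum_congr rfl fun a _ => sum_congr rfl fun b _ => ?_
  congr 1
  apply propext
  omega

lemma ker_E_big (d : ℕ) (t : ℤ) (ht : (d : ℤ) ≤ |t|) : ker_E d t = 0 := by
  unfold ker_E
  refine sum_eq_zero fun a ha => sum_eq_zero fun b hb => ?_
  rw [mem_range] at ha hb
  rw [if_neg]
  intro h
  rcases abs_cases t with h1 | h1 <;> omega

lemma ker_E_diff (d : ℕ) (l : ℤ) (hl : |l| ≤ d) : ker_E d (-d + l) - ker_E d (d + l) = l := by
  rcases le_or_gt 0 l with h | h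
  · obtain ⟨p, rfl⟩ := Int.eq_ofNat_of_zero_le h
    have hp : p ≤ d := by
      rw [Nat.abs_cast] at hl
      exact_mod_cast hl
    have h1 : ker_E d (d + (p : ℤ)) = 0 := by
      apply ker_E_big
      rw [abs_of_nonneg (by positivity)]
      omega
    have h2 : (-(d : ℤ) + p) = -((d - p : ℕ) : ℤ) := by
      rw [Nat.cast_sub hp]
      ring
    rw [h1, h2, ker_E_nonpos d (d - p) (Nat.sub_le _ _), Nat.cast_sub hp]
    push_cast
    ring
  · obtain ⟨p, hp⟩ := Int.eq_ofNat_of_zero_le (show 0 ≤ -l by omega)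
    have hl' : l = -(p : ℤ) := by omega
    subst hl'
    have hp : p ≤ d := by
      rw [abs_neg, Nat.abs_cast] at hl
      exact_mod_cast hl
    have h1 : ker_E d (-(d : ℤ) + -(p : ℤ)) = 0 := by
      apply ker_E_big
      rw [abs_of_nonpos (by omega)]
      omega
    have h2 : ((d : ℤ) + -(p : ℤ)) = ((d - p : ℕ) : ℤ) := by
      rw [Nat.cast_sub hp]
      ring
    rw [h1, h2, ker_E_nonneg d (d - p) (Nat.sub_le _ _), Nat.cast_sub hp]
    push_cast
    ring

/-- the Dirichlet sum -/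
noncomputable def ker_D (d : ℕ) (u : ℝ) : ℂ := ∑ a ∈ range d, ker_e a u

lemma ker_D_sq (d : ℕ) (u : ℝ) :
    ((‖ker_D d u‖ ^ 2 : ℝ) : ℂ) = ∑ a ∈ range d, ∑ b ∈ range d, ker_e ((a : ℤ) - b) u := by
  have h1 : ((‖ker_D d u‖ ^ 2 : ℝ) : ℂ) = ker_D d u * (starRingEnd ℂ) (ker_D d u) := by
    rw [Complex.mul_conj']
    push_cast
    rfl
  rw [h1]
  unfold ker_D
  rw [map_sum, Finset.sum_mul_sum]
  refine sum_congr rfl fun a _ => sum_congr rfl fun b _ => ?_
  rw [ker_e_conj, ← ker_e_add]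
  rfl

lemma ker_sin (d : ℤ) (u : ℝ) : ((Real.sin (d * u) : ℝ) : ℂ) =
    (ker_e (-d) u - ker_e d u) * Complex.I / 2 := by
  rw [Complex.ofReal_sin]
  unfold Complex.sin ker_e
  push_cast
  congr 3
  congr 1
  ring

/-- the coefficients -/
noncomputable def ker_c (d : ℕ) (u : ℝ) : ℝ :=
  2 / (3 * d : ℕ) * ‖ker_D d u‖ ^ 2 * Real.sin ((d : ℤ) * u)

lemma ker_c_mul (d : ℕ) (l : ℤ) (u : ℝ) : (ker_c d u : ℂ) * ker_e l u =
    Complex.I / (3 * d : ℕ) * ((∑ a ∈ range d, ∑ b ∈ range d, ker_e ((a : ℤ) - b + (-d + l)) u) -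
      ∑ a ∈ range d, ∑ b ∈ range d, ker_e ((a : ℤ) - b + (d + l)) u) := by
  have h1 : ∀ t : ℤ, ∑ a ∈ range d, ∑ b ∈ range d, ker_e ((a : ℤ) - b + t) u =
      (∑ a ∈ range d, ∑ b ∈ range d, ker_e ((a : ℤ) - b) u) * ker_e t u := by
    intro t
    rw [Finset.sum_mul]
    refine sum_congr rfl fun a _ => ?_
    rw [Finset.sum_mul]
    refine sum_congr rfl fun b _ => ?_
    rw [ker_e_add]
  rw [h1, h1, ker_e_add, ker_e_add, ← ker_D_sq]
  unfold ker_c
  rw [Complex.ofReal_mul, Complex.ofReal_mul, ker_sin, Complex.ofReal_div, Complex.ofReal_natCast,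
    Complex.ofReal_ofNat]
  ring

lemma ker_sum {d : ℕ} (hd : 1 ≤ d) (l : ℤ) (hl : |l| ≤ d) :
    ∑ k ∈ range (3 * d), (ker_c d (2 * Real.pi * k / (3 * d : ℕ)) : ℂ) *
      ker_e l (2 * Real.pi * k / (3 * d : ℕ)) = l * Complex.I := by
  have hM : 0 < 3 * d := by omega
  have hM' : ((3 * d : ℕ) : ℂ) ≠ 0 := by exact_mod_cast hM.ne'
  have key : ∀ t : ℤ, |t| ≤ 2 * d →
      ∑ k ∈ range (3 * d), ∑ a ∈ range d, ∑ b ∈ range d,
        ker_e ((a : ℤ) - b + t) (2 * Real.pi * k / (3 * d : ℕ)) = (3 * d : ℕ) * ker_E d t := by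
    intro t ht
    rw [sum_comm]
    unfold ker_E
    rw [Finset.mul_sum]
    refine sum_congr rfl fun a ha => ?_
    rw [sum_comm, Finset.mul_sum]
    refine sum_congr rfl fun b hb => ?_
    rw [mem_range] at ha hb
    rw [ker_orth hM]
    · split_ifs <;> simp
    · rw [abs_lt]
      rw [abs_le] at ht
      push_cast
      constructor <;> omega
  rw [sum_congr rfl fun k _ => ker_c_mul d l _, ← Finset.mul_sum, Finset.sum_sub_distrib]
  rw [abs_le] at hl
  rw [key _ (by rw [abs_le]; constructor <;> omega), key _ (by rw [abs_le]; constructor <;> omega),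
    ← mul_sub, ker_E_diff d l (abs_le.2 hl)]
  field_simp

lemma ker_norm_sum {d : ℕ} (hd : 1 ≤ d) :
    ∑ k ∈ range (3 * d), ‖ker_D d (2 * Real.pi * k / (3 * d : ℕ))‖ ^ 2 = (3 * d : ℕ) * d := by
  have hM : 0 < 3 * d := by omega
  have h : (((∑ k ∈ range (3 * d), ‖ker_D d (2 * Real.pi * k / (3 * d : ℕ))‖ ^ 2 : ℝ)) : ℂ) =
      (((3 * d : ℕ) * d : ℝ) : ℂ) := by
    rw [Complex.ofReal_sum, sum_congr rfl fun k _ => ker_D_sq d _, sum_comm]
    have h1 : ∀ a ∈ range d, ∑ k ∈ range (3 * d), ∑ b ∈ range d,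
        ker_e ((a : ℤ) - b) (2 * Real.pi * k / (3 * d : ℕ)) = ((3 * d : ℕ) : ℂ) := by
      intro a ha
      rw [sum_comm]
      have h2 : ∀ b ∈ range d, ∑ k ∈ range (3 * d),
          ker_e ((a : ℤ) - b) (2 * Real.pi * k / (3 * d : ℕ)) =
            if a = b then ((3 * d : ℕ) : ℂ) else 0 := by
        intro b hb
        rw [mem_range] at ha hb
        rw [ker_orth hM]
        · congr 1
          apply propext
          omega
        · rw [abs_lt]
          push_cast
          constructor <;> omega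
      rw [sum_congr rfl h2, Finset.sum_ite_eq, if_pos ha]
    rw [sum_congr rfl h1, sum_const, card_range, nsmul_eq_mul]
    push_cast
    ring
  exact_mod_cast h

lemma ker_e_deriv (l : ℤ) : HasDerivAt (fun u : ℝ => ker_e l u) (l * Complex.I) 0 := by
  unfold ker_e
  have h1 : HasDerivAt (fun u : ℝ => (l : ℂ) * u * Complex.I) (l * Complex.I) 0 := by
    have h2 : HasDerivAt (fun u : ℝ => (u : ℂ)) 1 0 := Complex.ofRealCLM.hasDerivAt
    have h3 := (h2.const_mul (l : ℂ)).mul_const Complex.I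
    simpa using h3
  have h4 := h1.cexp
  simpa using h4

/-- powers of the sine -/
lemma ker_sin_pow (j : ℕ) (u : ℝ) : ((Real.sin u : ℝ) : ℂ) ^ j = ∑ m ∈ range (j + 1),
    ((Complex.I / 2) ^ m * (-(Complex.I / 2)) ^ (j - m) * (j.choose m : ℂ)) *
      ker_e ((j : ℤ) - 2 * m) u := by
  have h1 : ((Real.sin u : ℝ) : ℂ) = Complex.I / 2 * ker_e (-1) u + -(Complex.I / 2) * ker_e 1 u := by
    have := ker_sin 1 u
    rw [Int.cast_one, one_mul] at this
    rw [this]
    ring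
  rw [h1, add_pow]
  refine sum_congr rfl fun m hm => ?_
  rw [mem_range] at hm
  rw [mul_pow, mul_pow, ker_e_pow, ker_e_pow]
  have h2 : ((j : ℤ) - 2 * m) = (m * (-1 : ℤ)) + ((j - m : ℕ) : ℤ) * 1 := by
    rw [Nat.cast_sub (by omega)]
    ring
  rw [h2, ker_e_add]
  ring

lemma ker_coef {j : ℕ} (hj : 1 ≤ j) : ∑ m ∈ range (j + 1),
    ((Complex.I / 2) ^ m * (-(Complex.I / 2)) ^ (j - m) * (j.choose m : ℂ)) *
      ((((j : ℤ) - 2 * m : ℤ) : ℂ) * Complex.I) = if j = 1 then 1 else 0 := by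
  have h1 : HasDerivAt (fun u : ℝ => ∑ m ∈ range (j + 1),
      ((Complex.I / 2) ^ m * (-(Complex.I / 2)) ^ (j - m) * (j.choose m : ℂ)) *
        ker_e ((j : ℤ) - 2 * m) u) (∑ m ∈ range (j + 1),
    ((Complex.I / 2) ^ m * (-(Complex.I / 2)) ^ (j - m) * (j.choose m : ℂ)) *
      ((((j : ℤ) - 2 * m : ℤ) : ℂ) * Complex.I)) 0 :=
    HasDerivAt.fun_sum fun m _ => (ker_e_deriv _).const_mul _
  have h2 : HasDerivAt (fun u : ℝ => ((Real.sin u : ℝ) : ℂ) ^ j)
      (j * ((Real.sin 0 : ℝ) : ℂ) ^ (j - 1) * ((Real.cos 0 : ℝ) : ℂ)) 0 := by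
    have h3 : HasDerivAt (fun u : ℝ => ((Real.sin u : ℝ) : ℂ)) ((Real.cos 0 : ℝ) : ℂ) 0 :=
      (Real.hasDerivAt_sin 0).ofReal_comp
    exact h3.fun_pow j
  have h4 : (fun u : ℝ => ((Real.sin u : ℝ) : ℂ) ^ j) = fun u : ℝ => ∑ m ∈ range (j + 1),
      ((Complex.I / 2) ^ m * (-(Complex.I / 2)) ^ (j - m) * (j.choose m : ℂ)) *
        ker_e ((j : ℤ) - 2 * m) u := by
    funext u
    exact ker_sin_pow j u
  rw [h4] at h2
  rw [h1.unique h2]
  by_cases h : j = 1
  · subst h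
    simp
  · rw [if_neg h]
    have : j - 1 ≠ 0 := by omega
    simp [this]

theorem ker_pr (d : ℕ) (hd : 1 ≤ d) : ∃ (m : ℕ) (ρ c : Fin m → ℝ), (∀ k, |ρ k| ≤ 1) ∧
    ∑ k, |c k| ≤ 2 * d ∧
    ∀ j, 1 ≤ j → j ≤ d → ∑ k, c k * ρ k ^ j = if j = 1 then 1 else 0 := by
  have hM : 0 < 3 * d := by omega
  have hMr : (0 : ℝ) < (3 * d : ℕ) := by exact_mod_cast hM
  refine ⟨3 * d, fun k => Real.sin (2 * Real.pi * k / (3 * d : ℕ)),
    fun k => ker_c d (2 * Real.pi * k / (3 * d : ℕ)), fun k => Real.abs_sin_le_one _, ?_, ?_⟩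
  · rw [← Finset.sum_range (fun k : ℕ => |ker_c d (2 * Real.pi * k / (3 * d : ℕ))|)]
    calc ∑ k ∈ range (3 * d), |ker_c d (2 * Real.pi * k / (3 * d : ℕ))|
        ≤ ∑ k ∈ range (3 * d), 2 / (3 * d : ℕ) *
          ‖ker_D d (2 * Real.pi * k / (3 * d : ℕ))‖ ^ 2 := by
          refine sum_le_sum fun k _ => ?_
          unfold ker_c
          rw [abs_mul, abs_of_nonneg (by positivity)]
          exact mul_le_of_le_one_right (by positivity) (Real.abs_sin_le_one _)
      _ = 2 / (3 * d : ℕ) * ((3 * d : ℕ) * d) := by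
          rw [← Finset.mul_sum, ker_norm_sum hd]
      _ = 2 * d := by field_simp
      _ ≤ _ := le_rfl
  · intro j hj1 hjd
    rw [← Finset.sum_range (fun k : ℕ => ker_c d (2 * Real.pi * k / (3 * d : ℕ)) *
      Real.sin (2 * Real.pi * k / (3 * d : ℕ)) ^ j)]
    have h : (((∑ k ∈ range (3 * d), ker_c d (2 * Real.pi * k / (3 * d : ℕ)) *
      Real.sin (2 * Real.pi * k / (3 * d : ℕ)) ^ j : ℝ)) : ℂ) = if j = 1 then 1 else 0 := by
      rw [← ker_coef hj1, Complex.ofReal_sum]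
      have h1 : ∀ k ∈ range (3 * d), ((ker_c d (2 * Real.pi * k / (3 * d : ℕ)) *
          Real.sin (2 * Real.pi * k / (3 * d : ℕ)) ^ j : ℝ) : ℂ) = ∑ m ∈ range (j + 1),
          ((Complex.I / 2) ^ m * (-(Complex.I / 2)) ^ (j - m) * (j.choose m : ℂ)) *
            ((ker_c d (2 * Real.pi * k / (3 * d : ℕ)) : ℂ) *
              ker_e ((j : ℤ) - 2 * m) (2 * Real.pi * k / (3 * d : ℕ))) := by
        intro k _
        rw [Complex.ofReal_mul, Complex.ofReal_pow, ker_sin_pow, Finset.mul_sum]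
        refine sum_congr rfl fun m _ => ?_
        ring
      rw [sum_congr rfl h1, sum_comm]
      refine sum_congr rfl fun m hm => ?_
      rw [mem_range] at hm
      rw [← Finset.mul_sum, ker_sum hd _ (by rw [abs_le]; constructor <;> omega)]
    split_ifs at h ⊢ <;> exact_mod_cast h

end Pool.Agent.BF

namespace Pool.Agent.BF

theorem ker : type_of% @ker_pr := @ker_pr

end Pool.Agent.BF
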