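import Pool.Agent.Lib_helper92.BG.Defs

set_option linter.unusedSectionVars false

/-! Block LEV. -/

namespace Pool.Agent.BF

open Finset

variable {ι : Type} [Fintype ι] [DecidableEq ι] {S : Type} [AddCommGroup S] [Fintype S]
  [DecidableEq S]

theorem mm_mean_pr (e : ι → S) {K : ℕ} (hK : 1 ≤ K) (x : ι) :
    Ex (fun ω : Om ι K => (K : ℝ) * hh e K x (sg e ω)) = 0 := by
  obtain ⟨K, rfl⟩ : ∃ K', K = K' + 1 := ⟨K - 1, by omega⟩
  rw [est_ex_mul]
  have h1 := ex_involutive (flipE ι (K + 1) (fun _ => true))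
    (fun ω => hh e (K + 1) x (sg e ω))
  have h2 : ∀ ω : Om ι (K + 1), hh e (K + 1) x (sg e (flipE ι (K + 1) (fun _ => true) ω)) =
      (-1) * hh e (K + 1) x (sg e ω) := by
    intro ω
    have h0 : flipE ι (K + 1) (fun _ => true) ω = (fun j => !(ω j)) := by
      funext j; simp [flipE]
    rw [h0, hh_not]; ring
  simp only [h2] at h1
  rw [est_ex_mul] at h1
  have : Ex (fun ω : Om ι (K + 1) => hh e (K + 1) x (sg e ω)) = 0 := by linarith
  rw [this, mul_zero]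

theorem mm_sq_pr (e : ι → S) {K : ℕ} (hK : 1 ≤ K) (x : ι) :
    Ex (fun ω : Om ι K => ((K : ℝ) * hh e K x (sg e ω)) ^ 2) ≤ K := by
  have h1 : (fun ω : Om ι K => ((K : ℝ) * hh e K x (sg e ω)) ^ 2) =
      fun ω : Om ι K => (K : ℝ) ^ 2 * hh e K x (sg e ω) ^ 2 := by
    funext ω; ring
  rw [h1, est_ex_mul, ex_hh_sq e hK]
  have h2 := ww_le_one e hK x
  unfold ww at h2
  have hK0 : (0 : ℝ) ≤ K := Nat.cast_nonneg _
  nlinarith

theorem mm_lev_pr (e : ι → S) {K : ℕ} (hK : 1 ≤ K) (x : ι) (hs : SgnSym e x) (ω : Om ι K) :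
    ∑ j, Ex (fun ω' : Om ι K => ((K : ℝ) * hh e K x (sg e ω')) * bt (ω' j)) * bt (ω j) =
      ww e K x * TT ω x := by
  obtain ⟨K, rfl⟩ : ∃ K', K = K' + 1 := ⟨K - 1, by omega⟩
  set F : Om ι (K + 1) → ℝ := fun ω => hh e (K + 1) x (sg e ω) with hF
  have h0 : ∀ y k, y ≠ x → Ex (fun ω => F ω * bt (ω (y, k))) = 0 := by
    intro y k hy
    obtain ⟨ψ, ε, hεx, hεy, hψ⟩ := hs y hy
    have h1 : Ex (fun ω => F (flipE ι (K + 1) ε ω) * bt ((flipE ι (K + 1) ε ω) (y, k))) =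
        Ex (fun ω => F ω * bt (ω (y, k))) :=
      ex_involutive (flipE ι (K + 1) ε) (fun ω => F ω * bt (ω (y, k)))
    have h2 : ∀ ω, F (flipE ι (K + 1) ε ω) * bt ((flipE ι (K + 1) ε ω) (y, k)) =
        -(F ω * bt (ω (y, k))) := by
      intro ω
      have h3 : F (flipE ι (K + 1) ε ω) = F ω := hh_flip e x ψ ε hψ hεx ω
      have h4 : bt ((flipE ι (K + 1) ε ω) (y, k)) = -bt (ω (y, k)) := by
        simp only [flipE, Equiv.coe_fn_mk, hεy, if_true]
        cases ω (y, k) <;> simp [bt]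
      rw [h3, h4]; ring
    have h5 : Ex (fun ω => F (flipE ι (K + 1) ε ω) * bt ((flipE ι (K + 1) ε ω) (y, k))) =
        -Ex (fun ω => F ω * bt (ω (y, k))) := by
      unfold Ex
      rw [sum_congr rfl fun ω _ => h2 ω, sum_neg_distrib, neg_div]
    linarith
  have h6 : ∀ j : ι × Fin (K + 1),
      Ex (fun ω' : Om ι (K + 1) => (((K + 1 : ℕ) : ℝ) * hh e (K + 1) x (sg e ω')) * bt (ω' j)) =
        ((K + 1 : ℕ) : ℝ) * Ex (fun ω' : Om ι (K + 1) => F ω' * bt (ω' j)) := by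
    intro j
    rw [← est_ex_mul]
    congr 1
    funext ω'
    simp only [hF]; ring
  simp only [h6]
  rw [Fintype.sum_prod_type, Finset.sum_eq_single x]
  · have h7 : ∀ k : Fin (K + 1), Ex (fun ω' : Om ι (K + 1) => F ω' * bt (ω' (x, k))) =
        dd (mu e (mn (K + 1) x)) (e x) := by
      intro k
      rw [hF, ex_hh e x k (hh e (K + 1) x), ← ex_hh_sq e (by omega : 1 ≤ K + 1)]
      congr 1
      funext ω'
      ring
    simp only [h7]
    rw [← Finset.mul_sum, est_sum_bt]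
    rfl
  · intro y _ hy
    refine Finset.sum_eq_zero fun k _ => ?_
    rw [h0 y k hy]; ring
  · intro h
    exact absurd (Finset.mem_univ x) h

end Pool.Agent.BF

namespace Pool.Agent.BF

theorem mm_mean : type_of% @mm_mean_pr := @mm_mean_pr

theorem mm_sq : type_of% @mm_sq_pr := @mm_sq_pr

theorem mm_lev : type_of% @mm_lev_pr := @mm_lev_pr

end Pool.Agent.BF
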