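import Pool.Agent.Lib_helper92.BG.Defs

set_option linter.unusedSectionVars false

/-! Block NM3 (helper48): from the general theorem to the final bound. -/

namespace Pool.Agent.BF

open Finset

theorem nm3_growth : ∃ a₀ : ℕ, ∀ a : ℕ, a₀ ≤ a → 1 ≤ a →
    66600 * (a : ℝ) ^ 2 ≤ (2 : ℝ) ^ num2_v a := by
  have h1 := Real.tendsto_exp_div_pow_atTop 4
  have hlog : (0 : ℝ) < Real.log 2 := Real.log_pos one_lt_two
  have h2 : Filter.Tendsto (fun a : ℕ => Real.sqrt a * (Real.log 2 / 4)) Filter.atTop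
      Filter.atTop :=
    (Real.tendsto_sqrt_atTop.comp tendsto_natCast_atTop_atTop).atTop_mul_const (by positivity)
  have h3 := (h1.comp h2).eventually (Filter.eventually_ge_atTop (100000000 : ℝ))
  obtain ⟨a₀, ha₀⟩ := Filter.eventually_atTop.mp h3
  refine ⟨a₀, fun a ha ha1 => ?_⟩
  have h4 := ha₀ a ha
  simp only [Function.comp_apply] at h4
  have ha0 : (0 : ℝ) < a := by exact_mod_cast ha1
  have hs : 0 < Real.sqrt a := Real.sqrt_pos.mpr ha0
  have hs4 : Real.sqrt a ^ 4 = (a : ℝ) ^ 2 := by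
    have : Real.sqrt a ^ 2 = a := Real.sq_sqrt ha0.le
    calc Real.sqrt a ^ 4 = (Real.sqrt a ^ 2) ^ 2 := by ring
      _ = (a : ℝ) ^ 2 := by rw [this]
  rw [le_div_iff₀ (by positivity), mul_pow, hs4] at h4
  have h5 : (2 : ℝ) ^ (Real.sqrt a / 4) = Real.exp (Real.sqrt a * (Real.log 2 / 4)) := by
    rw [Real.rpow_def_of_pos two_pos]
    congr 1
    ring
  have h6 : (2 : ℝ) ^ (Real.sqrt a / 4) ≤ (2 : ℝ) ^ num2_v a :=
    Real.rpow_le_rpow_of_exponent_le one_le_two (num2_v_low ha1)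
  rw [h5] at h6
  refine le_trans ?_ (h4.trans h6)
  have h7 : (0.69 : ℝ) ≤ Real.log 2 := by have := Real.log_two_gt_d9; linarith
  have h8 : (0.69 / 4 : ℝ) ^ 4 ≤ (Real.log 2 / 4) ^ 4 := by gcongr
  have h9 : (0 : ℝ) < (a : ℝ) ^ 2 := by positivity
  have h10 : (66600 : ℝ) ≤ 100000000 * (0.69 / 4 : ℝ) ^ 4 := by norm_num
  calc 66600 * (a : ℝ) ^ 2 ≤ (100000000 * (0.69 / 4 : ℝ) ^ 4) * (a : ℝ) ^ 2 := by gcongr
    _ ≤ (100000000 * (Real.log 2 / 4) ^ 4) * (a : ℝ) ^ 2 := by gcongr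
    _ = 100000000 * ((a : ℝ) ^ 2 * (Real.log 2 / 4) ^ 4) := by ring

theorem nm3_exp16 (a : ℕ) (ha : 1 ≤ a) :
    160 * (a : ℝ) * 16 ^ a ≤ Real.exp (50 * a) := by
  have h1 : (16 : ℝ) ≤ Real.exp 4 := by
    have h2 := Real.add_one_le_exp (1 : ℝ)
    have h3 : Real.exp 4 = Real.exp 1 ^ 4 := by
      rw [← Real.exp_nat_mul]
      norm_num
    rw [h3]
    have h4 : (2 : ℝ) ≤ Real.exp 1 := by linarith
    calc (16 : ℝ) = 2 ^ 4 := by norm_num
      _ ≤ Real.exp 1 ^ 4 := by gcongr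
  have h2 : (16 : ℝ) ^ a ≤ Real.exp (4 * a) := by
    calc (16 : ℝ) ^ a ≤ Real.exp 4 ^ a := by gcongr
      _ = Real.exp (4 * a) := by
          rw [← Real.exp_nat_mul]
          congr 1
          ring
  have ha1 : (1 : ℝ) ≤ a := by exact_mod_cast ha
  have h3 : 160 * (a : ℝ) ≤ Real.exp (46 * a) := by
    have h4 : (a : ℝ) ≤ Real.exp a := by
      have := Real.add_one_le_exp (a : ℝ)
      linarith
    have h5 : (160 : ℝ) ≤ Real.exp (45 * a) := by
      have h6 : (16 : ℝ) * 16 ≤ Real.exp 4 * Real.exp 4 := by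
        apply mul_le_mul h1 h1 (by norm_num) (Real.exp_pos _).le
      rw [← Real.exp_add] at h6
      have h7 : Real.exp (4 + 4) ≤ Real.exp (45 * a) := Real.exp_le_exp.mpr (by linarith)
      linarith
    calc 160 * (a : ℝ) ≤ Real.exp (45 * a) * Real.exp a := by
          apply mul_le_mul h5 h4 (by linarith) (Real.exp_pos _).le
      _ = Real.exp (46 * a) := by
          rw [← Real.exp_add]
          congr 1
          ring
  calc 160 * (a : ℝ) * 16 ^ a ≤ Real.exp (46 * a) * Real.exp (4 * a) := by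
        apply mul_le_mul h3 h2 (by positivity) (Real.exp_pos _).le
    _ = Real.exp (50 * a) := by
        rw [← Real.exp_add]
        congr 1
        ring

open Pool.Agent.Lib_helper75.Bent in
theorem final_bound2_pr
    (H : ∀ (a R d : ℕ) (τ : ℝ), 1 ≤ a → 8 ≤ R →
      Real.log (25 * R) ≤ (a * (2 * a).choose a : ℝ) / (2 * 4 ^ a) * Real.log 2 →
      8 * Real.log (8 * 4 ^ a) ≤ (R : ℝ) ^ 2 → 0 ≤ τ → (τ + 2) ^ 3 ≤ (R : ℝ) ^ 4 → 1 ≤ d →
      8 * (d : ℝ) ^ 2 * 4 ^ a * (R : ℝ) ^ 2 ≤ 4 ^ d →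
      40 * (R : ℝ) ^ 2 * d * 4 ^ a * Real.exp (-(τ ^ 2 / (2 * (R : ℝ) ^ 2))) ≤ 1 →
      16 * (14 * d + 5) ≤ R ^ 2 → 0 < numBent (2 * a) →
      Real.log (numBent (2 * a)) ≤
        16 * (14 * (d : ℝ) + 5) ^ 2 * 4 ^ a / (R : ℝ) ^ 2 + Real.log 4) :
    ∃ C : ℝ, ∀ n : ℕ, Even n → 2 ≤ n →
      Real.logb 2 (numBent n) ≤
        C * (n : ℝ) ^ 2 * 2 ^ ((n : ℝ) - n * (n.choose (n / 2) : ℝ) / 2 ^ (n + 1)) := by
  obtain ⟨a₀, ha₀⟩ := nm3_growth
  set C₂ : ℝ := ∑ a ∈ range a₀, |Real.logb 2 (numBent (2 * a))| with hC₂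
  have hC₂0 : 0 ≤ C₂ := Finset.sum_nonneg (fun _ _ => abs_nonneg _)
  have hlog2 : (0 : ℝ) < Real.log 2 := Real.log_pos one_lt_two
  have hlog2h : (1 / 2 : ℝ) ≤ Real.log 2 := by have := Real.log_two_gt_d9; linarith
  have hlog2u : Real.log 2 ≤ 1 := by have := Real.log_two_lt_d9; linarith
  refine ⟨75000000 + C₂, ?_⟩
  intro n hn hn2
  obtain ⟨a, rfl⟩ : ∃ a, n = 2 * a := ⟨n / 2, by obtain ⟨b, hb⟩ := hn; omega⟩
  have ha1 : 1 ≤ a := by omega
  have ha0 : (0 : ℝ) < a := by exact_mod_cast ha1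
  have ha1r : (1 : ℝ) ≤ a := by exact_mod_cast ha1
  have hhalf : 2 * a / 2 = a := by omega
  have hexp : ((2 * a : ℕ) : ℝ) - ((2 * a : ℕ) : ℝ) * ((2 * a).choose (2 * a / 2) : ℝ) /
      2 ^ (2 * a + 1) = 2 * a - 2 * num2_v a := by
    rw [hhalf, num2_v, pow_add, pow_mul]
    push_cast
    have h4 : (0 : ℝ) < 4 ^ a := by positivity
    norm_num
    field_simp
  rw [hexp]
  have hvup := num2_v_up ha1
  have hvlow := num2_v_low ha1
  have hsa1 : (1 : ℝ) ≤ Real.sqrt a := Real.one_le_sqrt.mpr ha1r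
  have hsaa : Real.sqrt a ≤ a := by
    rw [Real.sqrt_le_left ha0.le]
    nlinarith
  have hv0 : 0 ≤ num2_v a := by
    unfold num2_v
    positivity
  set E : ℝ := (2 : ℝ) ^ (2 * (a : ℝ) - 2 * num2_v a) with hE
  have hE1 : 1 ≤ E := Real.one_le_rpow one_le_two (by linarith)
  have hn4 : (((2 * a : ℕ) : ℝ)) ^ 2 = 4 * (a : ℝ) ^ 2 := by
    push_cast
    ring
  rw [hn4]
  have ha2 : (1 : ℝ) ≤ (a : ℝ) ^ 2 := by nlinarith
  rcases lt_or_ge a a₀ with hsmall | hbig
  · have h1 : |Real.logb 2 (numBent (2 * a))| ≤ C₂ :=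
      Finset.single_le_sum (f := fun a => |Real.logb 2 (numBent (2 * a))|)
        (fun _ _ => abs_nonneg _) (Finset.mem_range.mpr hsmall)
    calc Real.logb 2 (numBent (2 * a)) ≤ |Real.logb 2 (numBent (2 * a))| := le_abs_self _
      _ ≤ C₂ := h1
      _ ≤ (75000000 + C₂) * (4 * 1) * 1 := by linarith
      _ ≤ (75000000 + C₂) * (4 * (a : ℝ) ^ 2) * E := by gcongr
  · rcases Nat.eq_zero_or_pos (numBent (2 * a)) with h0 | hpos
    · rw [h0]
      simp only [Nat.cast_zero, Real.logb_zero]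
      positivity
    · have hg := ha₀ a hbig ha1
      set V : ℝ := (2 : ℝ) ^ num2_v a with hV
      have hV0 : 0 < V := by positivity
      have hVbig : 66600 ≤ V := by nlinarith
      set R : ℕ := ⌊V / 25⌋₊ with hR
      have hRle : (R : ℝ) ≤ V / 25 := Nat.floor_le (by positivity)
      have hRlt : V / 25 < R + 1 := Nat.lt_floor_add_one _
      have hR50 : V / 50 ≤ R := by linarith
      have hR1331 : 1331 * (a : ℝ) ^ 2 ≤ R := by linarith
      have hR8 : 8 ≤ R := by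
        have : (8 : ℝ) ≤ R := by nlinarith
        exact_mod_cast this
      have hR8' : (8 : ℝ) ≤ R := by exact_mod_cast hR8
      have hR0 : (0 : ℝ) < R := by linarith
      have hRR : (R : ℝ) ≤ (R : ℝ) ^ 2 := by nlinarith
      have haa : (a : ℝ) ≤ (a : ℝ) ^ 2 := by nlinarith
      have hlog4 : Real.log 4 = 2 * Real.log 2 := by
        rw [show (4 : ℝ) = 2 ^ 2 by norm_num, Real.log_pow]; norm_num
      have hlog8 : Real.log 8 = 3 * Real.log 2 := by
        rw [show (8 : ℝ) = 2 ^ 3 by norm_num, Real.log_pow]; norm_num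
      have hcond1 : 8 * Real.log (8 * 4 ^ a) ≤ (R : ℝ) ^ 2 := by
        rw [Real.log_mul (by norm_num) (by positivity), Real.log_pow, hlog8, hlog4]
        have h1 : 8 * (3 * Real.log 2 + a * (2 * Real.log 2)) ≤ 8 * (3 * 1 + a * (2 * 1)) := by
          gcongr
        linarith
      have hlogV : Real.log V = num2_v a * Real.log 2 := by
        rw [hV, Real.log_rpow two_pos]
      have hcond2 : Real.log (25 * R) ≤ (a * (2 * a).choose a : ℝ) / (2 * 4 ^ a) * Real.log 2 := by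
        have h1 : (a * (2 * a).choose a : ℝ) / (2 * 4 ^ a) * Real.log 2 = Real.log V := by
          rw [hlogV, num2_v]
        rw [h1]
        exact Real.log_le_log (by positivity) (by linarith)
      -- the parameters
      set τ : ℝ := 10 * R * Real.sqrt a with hτ
      have hτ0 : 0 ≤ τ := by positivity
      have hsq : Real.sqrt a ^ 2 = a := Real.sq_sqrt ha0.le
      have hτ3 : (τ + 2) ^ 3 ≤ (R : ℝ) ^ 4 := by
        have h1 : τ + 2 ≤ 11 * (R * Real.sqrt a) := by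
          have : 2 ≤ R * Real.sqrt a := by nlinarith
          rw [hτ]
          linarith
        calc (τ + 2) ^ 3 ≤ (11 * (R * Real.sqrt a)) ^ 3 := by gcongr
          _ = (R : ℝ) ^ 3 * (1331 * (Real.sqrt a ^ 2 * Real.sqrt a)) := by ring
          _ ≤ (R : ℝ) ^ 3 * (1331 * (a : ℝ) ^ 2) := by
              rw [hsq, pow_two (a : ℝ)]
              gcongr
          _ ≤ (R : ℝ) ^ 3 * R := by gcongr
          _ = (R : ℝ) ^ 4 := by ring
      have hR2V : (R : ℝ) ^ 2 ≤ 4 ^ a := by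
        have h1 : (R : ℝ) ≤ V := by linarith
        have h2 : (R : ℝ) ^ 2 ≤ V ^ 2 := by gcongr
        refine h2.trans ?_
        rw [hV, ← Real.rpow_natCast, ← Real.rpow_mul two_pos.le]
        have h3 : (4 : ℝ) ^ a = (2 : ℝ) ^ (2 * (a : ℝ)) := by
          rw [show (2 : ℝ) * (a : ℝ) = ((2 * a : ℕ) : ℝ) by push_cast; ring, Real.rpow_natCast,
            pow_mul]
          norm_num
        rw [h3]
        apply Real.rpow_le_rpow_of_exponent_le one_le_two
        push_cast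
        linarith
      have hc1 : 8 * (((4 * a : ℕ) : ℝ)) ^ 2 * 4 ^ a * (R : ℝ) ^ 2 ≤ 4 ^ (4 * a) := by
        have h1 : 128 * (a : ℝ) ^ 2 ≤ 4 ^ a * 4 ^ a := by
          -- `128 a^2 <= R <= R^2 <= 4^a`
          have h2 : 128 * (a : ℝ) ^ 2 ≤ 4 ^ a := by linarith
          have h3 : (1 : ℝ) ≤ 4 ^ a := one_le_pow₀ (by norm_num)
          nlinarith
        have h4 : (4 : ℝ) ^ (4 * a) = (4 ^ a * 4 ^ a) * (4 ^ a * 4 ^ a) := by
          rw [← pow_add, ← pow_add]
          congr 1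
          ring
        rw [h4]
        calc 8 * (((4 * a : ℕ) : ℝ)) ^ 2 * 4 ^ a * (R : ℝ) ^ 2 =
              (128 * (a : ℝ) ^ 2) * (4 ^ a * (R : ℝ) ^ 2) := by
              push_cast
              ring
          _ ≤ (4 ^ a * 4 ^ a) * (4 ^ a * 4 ^ a) := by
              gcongr
      have hc2 : 40 * (R : ℝ) ^ 2 * ((4 * a : ℕ) : ℝ) * 4 ^ a *
          Real.exp (-(τ ^ 2 / (2 * (R : ℝ) ^ 2))) ≤ 1 := by
        have h1 : τ ^ 2 / (2 * (R : ℝ) ^ 2) = 50 * a := by
          rw [hτ, mul_pow, mul_pow, hsq]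
          field_simp
          ring
        rw [h1, Real.exp_neg]
        have h2 := nm3_exp16 a ha1
        rw [← div_eq_mul_inv, div_le_one (Real.exp_pos _)]
        refine le_trans ?_ h2
        have h3 : (16 : ℝ) ^ a = 4 ^ a * 4 ^ a := by
          rw [← mul_pow]
          norm_num
        rw [h3]
        calc 40 * (R : ℝ) ^ 2 * ((4 * a : ℕ) : ℝ) * 4 ^ a =
              160 * (a : ℝ) * ((R : ℝ) ^ 2 * 4 ^ a) := by
              push_cast
              ring
          _ ≤ 160 * (a : ℝ) * (4 ^ a * 4 ^ a) := by gcongr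
      have hc3 : 16 * (14 * (4 * a) + 5) ≤ R ^ 2 := by
        have h1 : (16 : ℝ) * (14 * (4 * a) + 5) ≤ (R : ℝ) ^ 2 := by
          linarith
        exact_mod_cast h1
      have hmain := H a R (4 * a) τ ha1 hR8 hcond2 hcond1 hτ0 hτ3 (by omega) hc1 hc2 hc3 hpos
      have hEV : E = 4 ^ a / V ^ 2 := by
        rw [hE, hV, Real.rpow_sub two_pos]
        congr 1
        · rw [show (2 : ℝ) * (a : ℝ) = ((2 * a : ℕ) : ℝ) by push_cast; ring, Real.rpow_natCast,
            pow_mul]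
          norm_num
        · rw [← Real.rpow_natCast, ← Real.rpow_mul two_pos.le]
          congr 1
          push_cast
          ring
      have h1 : 16 * (14 * (((4 * a : ℕ) : ℝ)) + 5) ^ 2 * 4 ^ a / (R : ℝ) ^ 2 ≤
          148840000 * (a : ℝ) ^ 2 * E := by
        have h2 : 14 * (((4 * a : ℕ) : ℝ)) + 5 ≤ 61 * a := by
          push_cast
          linarith
        calc 16 * (14 * (((4 * a : ℕ) : ℝ)) + 5) ^ 2 * 4 ^ a / (R : ℝ) ^ 2 ≤
              16 * (61 * (a : ℝ)) ^ 2 * 4 ^ a / (R : ℝ) ^ 2 := by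
              gcongr
          _ ≤ 16 * (61 * (a : ℝ)) ^ 2 * 4 ^ a / (V / 50) ^ 2 := by
              apply div_le_div_of_nonneg_left (by positivity) (by positivity)
              gcongr
          _ = 148840000 * (a : ℝ) ^ 2 * E := by
              rw [hEV]
              field_simp
              ring
      have h3 : Real.log 4 ≤ 2 * (a : ℝ) ^ 2 * E := by
        calc Real.log 4 ≤ 2 * 1 * 1 := by rw [hlog4]; linarith
          _ ≤ 2 * (a : ℝ) ^ 2 * E := by gcongr
      have h4 : Real.log (numBent (2 * a)) ≤ 148840002 * (a : ℝ) ^ 2 * E := by linarith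
      have h5 : 0 ≤ 148840002 * (a : ℝ) ^ 2 * E := by positivity
      rw [Real.logb, div_le_iff₀ hlog2]
      calc Real.log (numBent (2 * a)) ≤ 148840002 * (a : ℝ) ^ 2 * E := h4
        _ ≤ (75000000 * (4 * (a : ℝ) ^ 2) * E) * (1 / 2) := by
            have : 0 ≤ (a : ℝ) ^ 2 * E := by positivity
            nlinarith
        _ ≤ (75000000 + C₂) * (4 * (a : ℝ) ^ 2) * E * Real.log 2 := by
            gcongr
            linarith

end Pool.Agent.BF

namespace Pool.Agent.BF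

theorem final_bound2 : type_of% @final_bound2_pr := @final_bound2_pr

end Pool.Agent.BF
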