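import Pool.Agent.Lib_helper92.BG.Defs
import Pool.Agent.Lib_helper92.BGA.BPR

set_option linter.unusedSectionVars false

/-! Block PK2 (helper48): packing with large shifts. -/

namespace Pool.Agent.BF

open Finset

variable {ι : Type} [Fintype ι] [DecidableEq ι]

theorem pk2_pair {K q : ℕ} (hq : 1 ≤ q) (hqK : 16 * q ≤ K) (v X : ι → ℤ)
    (hv : ∀ x, (K : ℤ) ≤ 4 * v x ∧ 4 * v x ≤ 3 * (K : ℤ)) (hX : ∀ x, X x = 1 ∨ X x = -1) :
    2 * (Real.exp (-(16 * (q : ℝ) ^ 2 / K)) ^ Fintype.card ι * ∏ x, pack_b K (v x)) ≤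
      ∏ x, pack_b K (v x - q * X x) + ∏ x, pack_b K (v x + q * X x) := by
  refine pack_amgm (Finset.prod_nonneg fun x _ => pack_b_nonneg K _)
    (Finset.prod_nonneg fun x _ => pack_b_nonneg K _) ?_
  have h1 : (Real.exp (-(16 * (q : ℝ) ^ 2 / K)) ^ Fintype.card ι * ∏ x, pack_b K (v x)) ^ 2 =
      ∏ x, (Real.exp (-(16 * (q : ℝ) ^ 2 / K)) ^ 2 * pack_b K (v x) ^ 2) := by
    rw [Finset.prod_mul_distrib, Finset.prod_pow, mul_pow, Finset.prod_const, Finset.card_univ,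
      Finset.prod_pow, ← pow_mul]
  rw [h1, ← Finset.prod_mul_distrib]
  exact Finset.prod_le_prod (fun x _ => by positivity)
    fun x _ => bpair_pr hq hqK (hv x).1 (hv x).2 (hX x)

theorem pack2_pr [Nonempty ι] {K q : ℕ} (hq : 1 ≤ q) (hqK : 16 * q ≤ K)
    (𝓑 : Finset (ι → ℤ)) (h1 : ∀ X ∈ 𝓑, ∀ x, X x = 1 ∨ X x = -1) (h3 : ∀ X ∈ 𝓑, -X ∈ 𝓑)
    (hne : 𝓑.Nonempty) (A : Finset (Om ι K))
    (hA : (1 / 4 : ℝ) * Fintype.card (Om ι K) ≤ A.card)
    (hgood : ∀ ω ∈ A, ∀ x, K ≤ 4 * gam ω x ∧ 4 * gam ω x ≤ 3 * K)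
    (hdis : ∀ ω ∈ A, ∀ ω' ∈ A, ∀ X ∈ 𝓑, ∀ X' ∈ 𝓑,
      (∀ x, (gam ω x : ℤ) + q * X x = (gam ω' x : ℤ) + q * X' x) → X = X') :
    Real.log 𝓑.card ≤ 16 * (q : ℝ) ^ 2 * Fintype.card ι / K + Real.log 4 := by
  classical
  have hcard : (0 : ℝ) < Fintype.card (Om ι K) := by exact_mod_cast Fintype.card_pos
  -- the values
  set V : Finset (ι → ℤ) := A.image (fun ω => fun x => (gam ω x : ℤ)) with hV
  have hAprob : (1 / 4 : ℝ) ≤ ∑ v ∈ V, ∏ x, pack_b K (v x) := by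
    have h6 : (A.card : ℝ) ≤ ∑ v ∈ V, (Fintype.card (Om ι K) : ℝ) * ∏ x, pack_b K (v x) := by
      have h7 : A.card = ∑ v ∈ V, (A.filter
          (fun ω => (fun x => (gam ω x : ℤ)) = v)).card :=
        Finset.card_eq_sum_card_image _ _
      rw [h7]
      push_cast
      refine Finset.sum_le_sum fun v hv => ?_
      rw [hV, Finset.mem_image] at hv
      obtain ⟨ω₀, _, rfl⟩ := hv
      have h8 : (A.filter (fun ω => (fun x => (gam ω x : ℤ)) = fun x => (gam ω₀ x : ℤ))).card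
          ≤ (univ.filter fun ω : Om ι K => gam ω = gam ω₀).card := by
        apply Finset.card_le_card
        intro ω hω
        rw [Finset.mem_filter] at hω ⊢
        refine ⟨Finset.mem_univ _, ?_⟩
        funext x
        have := congrFun hω.2 x
        simpa using this
      rw [pack_card_om] at h8
      have h9 : (Fintype.card (Om ι K) : ℝ) * ∏ x, pack_b K (gam ω₀ x : ℤ) =
          ((∏ x, K.choose (gam ω₀ x) : ℕ) : ℝ) := by
        have h10 : (Fintype.card (Om ι K) : ℝ) = (2 ^ K) ^ Fintype.card ι := by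
          simp [Om, Fintype.card_prod, pow_mul, mul_comm]
        have h11 : ∏ x, pack_b K (gam ω₀ x : ℤ) =
            (∏ x, (K.choose (gam ω₀ x) : ℝ)) / (2 ^ K) ^ Fintype.card ι := by
          simp_rw [pack_b_nat]
          unfold bw
          rw [Finset.prod_div_distrib, Finset.prod_const, Finset.card_univ]
        rw [h10, h11]
        push_cast
        field_simp
      rw [h9]
      exact_mod_cast h8
    rw [← Finset.mul_sum] at h6
    have h12 : (1 / 4 : ℝ) * Fintype.card (Om ι K) ≤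
        (∑ v ∈ V, ∏ x, pack_b K (v x)) * Fintype.card (Om ι K) := by
      linarith
    exact le_of_mul_le_mul_right h12 hcard
  have hVgood : ∀ v ∈ V, ∀ x, (K : ℤ) ≤ 4 * v x ∧ 4 * v x ≤ 3 * (K : ℤ) := by
    intro v hv x
    rw [hV, Finset.mem_image] at hv
    obtain ⟨ω, hω, rfl⟩ := hv
    have := hgood ω hω x
    show (K : ℤ) ≤ 4 * (gam ω x : ℤ) ∧ 4 * (gam ω x : ℤ) ≤ 3 * (K : ℤ)
    omega
  have hVdis : ∀ v ∈ V, ∀ v' ∈ V, ∀ X ∈ 𝓑, ∀ X' ∈ 𝓑,
      (fun x => v x + q * X x) = (fun x => v' x + q * X' x) → v = v' ∧ X = X' := by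
    intro v hv v' hv' X hX X' hX' h
    rw [hV, Finset.mem_image] at hv hv'
    obtain ⟨ω, hω, rfl⟩ := hv
    obtain ⟨ω', hω', rfl⟩ := hv'
    have h4 := hdis ω hω ω' hω' X hX X' hX' (fun x => congrFun h x)
    refine ⟨?_, h4⟩
    funext x
    have h5 := congrFun h x
    rw [h4] at h5
    simpa using h5
  -- the lower bound
  set E : ℝ := Real.exp (-(16 * (q : ℝ) ^ 2 / K)) ^ Fintype.card ι with hE
  have hE0 : 0 < E := by positivity
  have hlow : (𝓑.card : ℝ) * E * (1 / 4) ≤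
      ∑ v ∈ V, ∑ X ∈ 𝓑, ∏ x, pack_b K (v x + q * X x) := by
    have h14 : ∀ v ∈ V, (𝓑.card : ℝ) * (E * ∏ x, pack_b K (v x)) ≤
        ∑ X ∈ 𝓑, ∏ x, pack_b K (v x + q * X x) := by
      intro v hv
      have h15 : ∑ X ∈ 𝓑, ∏ x, pack_b K (v x - q * X x) =
          ∑ X ∈ 𝓑, ∏ x, pack_b K (v x + q * X x) := by
        refine Finset.sum_bij' (fun X _ => -X) (fun X _ => -X) ?_ ?_ ?_ ?_ ?_
        · intro X hX; exact h3 X hX
        · intro X hX; exact h3 X hX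
        · intro X _; simp
        · intro X _; simp
        · intro X _; simp [sub_eq_add_neg]
      have h16 : ∑ X ∈ 𝓑, 2 * (E * ∏ x, pack_b K (v x)) ≤
          ∑ X ∈ 𝓑, (∏ x, pack_b K (v x - q * X x) + ∏ x, pack_b K (v x + q * X x)) :=
        Finset.sum_le_sum fun X hX => pk2_pair hq hqK v X (hVgood v hv) (h1 X hX)
      rw [Finset.sum_add_distrib, h15, Finset.sum_const, nsmul_eq_mul] at h16
      linarith
    have h17 : ∑ v ∈ V, (𝓑.card : ℝ) * (E * ∏ x, pack_b K (v x)) ≤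
        ∑ v ∈ V, ∑ X ∈ 𝓑, ∏ x, pack_b K (v x + q * X x) := Finset.sum_le_sum h14
    have h18 : ∑ v ∈ V, (𝓑.card : ℝ) * (E * ∏ x, pack_b K (v x)) =
        (𝓑.card : ℝ) * E * ∑ v ∈ V, ∏ x, pack_b K (v x) := by
      rw [Finset.mul_sum]
      exact Finset.sum_congr rfl fun v _ => by ring
    rw [h18] at h17
    refine le_trans ?_ h17
    exact mul_le_mul_of_nonneg_left hAprob (by positivity)
  -- the upper bound
  have hupp : ∑ v ∈ V, ∑ X ∈ 𝓑, ∏ x, pack_b K (v x + q * X x) ≤ 1 := by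
    rw [← Finset.sum_product' (s := V) (t := 𝓑)
      (f := fun v X => ∏ x, pack_b K (v x + q * X x))]
    have h19 : ∑ p ∈ V ×ˢ 𝓑, ∏ x, pack_b K (p.1 x + q * p.2 x) =
        ∑ u ∈ (V ×ˢ 𝓑).image (fun p : (ι → ℤ) × (ι → ℤ) => fun x => p.1 x + q * p.2 x),
          ∏ x, pack_b K (u x) := by
      rw [Finset.sum_image]
      intro p hp p' hp' h
      rw [Finset.mem_coe, Finset.mem_product] at hp hp'
      obtain ⟨e1, e2⟩ := hVdis p.1 hp.1 p'.1 hp'.1 p.2 hp.2 p'.2 hp'.2 h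
      exact Prod.ext e1 e2
    rw [h19]
    exact pack_B_sum K _
  -- conclusion
  have hB0 : (0 : ℝ) < 𝓑.card := by exact_mod_cast hne.card_pos
  have hfin : (𝓑.card : ℝ) * E * (1 / 4) ≤ 1 := hlow.trans hupp
  have h29 := Real.log_le_log (by positivity) hfin
  rw [Real.log_one, Real.log_mul (by positivity) (by norm_num),
    Real.log_mul hB0.ne' hE0.ne', hE, Real.log_pow, Real.log_exp] at h29
  have h30 : Real.log (1 / 4 : ℝ) = - Real.log 4 := by
    rw [one_div, Real.log_inv]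
  rw [h30] at h29
  have h32 : (Fintype.card ι : ℝ) * (-(16 * (q : ℝ) ^ 2 / K)) =
      - (16 * (q : ℝ) ^ 2 * Fintype.card ι / K) := by ring
  rw [h32] at h29
  linarith

end Pool.Agent.BF

namespace Pool.Agent.BF

theorem pack2 : type_of% @pack2_pr := @pack2_pr

end Pool.Agent.BF
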