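import Pool.Agent.Lib_helper92.BG.Defs
import Pool.Agent.Lib_helper92.BGA.BETA
import Pool.Agent.Lib_helper92.BGA.EXT
import Pool.Agent.Lib_helper92.BGA.KER
import Pool.Agent.Lib_helper92.BGA.LEV
import Pool.Agent.Lib_helper92.BGA.NZ

set_option linter.unusedSectionVars false

/-! Block TYP (helper38). Cites tn_mono, tn_const, tn_lin, tn_ex, ker, ext_lin, mm_mean, mm_sq,
mm_lev, beta (and part 1: good, ww_trans). -/

namespace Pool.Agent.BF

open Finset

variable {ι : Type} [Fintype ι] [DecidableEq ι] {S : Type} [AddCommGroup S] [Fintype S]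
  [DecidableEq S]

theorem TYP_ex_sum {α β : Type} [Fintype α] (s : Finset β) (F : β → α → ℝ) :
    Ex (fun a => ∑ b ∈ s, F b a) = ∑ b ∈ s, Ex (F b) := by
  unfold Ex
  rw [Finset.sum_comm, Finset.sum_div]

theorem TYP_ex_mul {α : Type} [Fintype α] (c : ℝ) (F : α → ℝ) :
    Ex (fun a => c * F a) = c * Ex F := by
  unfold Ex
  rw [← Finset.mul_sum, mul_div_assoc]

/-- Markov -/
theorem TYP_markov {α : Type} [Fintype α] [Nonempty α] [DecidableEq α] (F : α → ℝ)
    (h0 : ∀ a, 0 ≤ F a) {t : ℝ} (h : Ex F ≤ t) :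
    ((univ.filter fun a => 1 < F a).card : ℝ) ≤ t * Fintype.card α := by
  have hc : (0 : ℝ) < Fintype.card α := by exact_mod_cast Fintype.card_pos
  unfold Ex at h
  rw [div_le_iff₀ hc] at h
  refine le_trans ?_ h
  rw [Finset.card_eq_sum_ones]
  push_cast
  rw [Finset.sum_filter]
  refine Finset.sum_le_sum fun a _ => ?_
  split_ifs with h1
  · exact h1.le
  · exact h0 a

theorem TYP_abs {J : Type} [Fintype J] [DecidableEq J] {ρ : ℝ} (hρ : |ρ| ≤ 1)
    (F G : (J → Bool) → ℝ) (h : ∀ ω, |F ω| ≤ G ω) (ω : J → Bool) : |Tn ρ F ω| ≤ Tn ρ G ω := by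
  rw [abs_le]
  constructor
  · have h1 := tn_mono hρ (fun ω => -G ω) F (fun ω => (abs_le.1 (h ω)).1) ω
    have h2 : Tn ρ (fun ω => -G ω) ω = -Tn ρ G ω := by
      have h3 := tn_lin (univ : Finset Unit) ρ (fun _ => -1) (fun _ => G) ω
      simpa using h3
    rw [h2] at h1
    exact h1
  · exact tn_mono hρ F G (fun ω => (abs_le.1 (h ω)).2) ω

theorem typ_pr [Nonempty ι] (e : ι → S) (ht : Trans e) (hs : ∀ x, SgnSym e x) {K d : ℕ}
    (hK : 64 ≤ K) (hKg : 8 * Real.log (8 * Fintype.card ι) ≤ K) {τ : ℝ} (hτ : 0 ≤ τ)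
    (hτ3 : (τ + 2) ^ 3 ≤ (K : ℝ) ^ 2) (hd : 1 ≤ d)
    (c1 : 8 * (d : ℝ) ^ 2 * Fintype.card ι * K ≤ 4 ^ d)
    (c2 : 40 * K * d * Fintype.card ι * Real.exp (-(τ ^ 2 / (2 * K))) ≤ 1)
    (hw : ∀ x, 1 / 2 ≤ ww e K x) : ∃ A : Finset (Om ι K),
    (1 / 4 : ℝ) * Fintype.card (Om ι K) ≤ A.card ∧
    (∀ ω ∈ A, ∀ x, K ≤ 4 * gam ω x ∧ 4 * gam ω x ≤ 3 * K) ∧
    ∀ ω ∈ A, ∀ Z : ι → ℤ, (∀ x, Z x = -1 ∨ Z x = 0 ∨ Z x = 1) → ∑ x, (2 * Z x) • e x = 0 →
      |∑ x, TT ω x * (Z x : ℝ)| ≤ (28 * d + 8) * ∑ x, |(Z x : ℝ)| := by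
  classical
  have hK1 : 1 ≤ K := by omega
  have hKR : (0 : ℝ) < K := by exact_mod_cast hK1
  have hdR : (1 : ℝ) ≤ d := by exact_mod_cast hd
  obtain ⟨m, ρ, c, hρ, hc, hker⟩ := ker d hd
  obtain ⟨β, hβ0, hβE, hβ⟩ := beta e hK hτ hτ3
  set N : ℝ := (Fintype.card ι : ℝ) with hN
  have hN0 : 0 < N := by
    rw [hN]
    exact_mod_cast Fintype.card_pos
  set F : ι → Om ι K → ℝ := fun x ω => (K : ℝ) * hh e K x (sg e ω) with hF
  set err : ι → Om ι K → ℝ := fun x ω =>
    ∑ k, c k * Tn (ρ k / 2) (F x) ω - ww e K x * TT ω x / 2 with herr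
  set D2 : Om ι K → ℝ := fun ω =>
    5 / 4 * K * ∑ k, |c k| * Tn (ρ k / 2) (fun ω' => β (sg e ω')) ω with hD2
  have hρ2 : ∀ k, |ρ k / 2| ≤ 1 := by
    intro k
    rw [abs_div, abs_two]
    have := hρ k
    linarith
  -- the error
  have hE1 : ∀ x, Ex (fun ω => err x ω ^ 2) ≤ (2 * d) ^ 2 * (1 / 4) ^ (d + 1) * K := by
    intro x
    have h1 := ext_lin d hd ρ c hρ hc hker (F x) (fun ω => ww e K x * TT ω x) (mm_mean e hK1 x)
      (fun ω => (mm_lev e hK1 x (hs x) ω).symm)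
    refine h1.trans ?_
    exact mul_le_mul_of_nonneg_left (mm_sq e hK1 x) (by positivity)
  have hE1s : Ex (fun ω => ∑ x, err x ω ^ 2) ≤ 1 / 8 := by
    rw [TYP_ex_sum]
    refine (Finset.sum_le_sum fun x _ => hE1 x).trans ?_
    rw [Finset.sum_const, card_univ, nsmul_eq_mul, ← hN]
    have h4 : (0 : ℝ) < 4 ^ d := by positivity
    have e1 : N * ((2 * d) ^ 2 * (1 / 4) ^ (d + 1) * K) = (8 * (d : ℝ) ^ 2 * N * K) / (8 * 4 ^ d) := by
      rw [pow_succ, one_div, inv_pow]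
      field_simp
      ring
    rw [e1, div_le_div_iff₀ (by positivity) (by norm_num)]
    linarith
  -- the large deviations
  have hE2 : Ex D2 ≤ 1 / 8 := by
    simp only [hD2]
    rw [TYP_ex_mul, TYP_ex_sum]
    have e1 : ∀ k, Ex (fun ω => |c k| * Tn (ρ k / 2) (fun ω' : Om ι K => β (sg e ω')) ω) =
        |c k| * Ex (fun ω : Om ι K => β (sg e ω)) := by
      intro k
      rw [TYP_ex_mul, tn_ex]
    simp only [e1]
    rw [← Finset.sum_mul]
    have hex0 : 0 ≤ Ex (fun ω : Om ι K => β (sg e ω)) := by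
      unfold Ex
      exact div_nonneg (Finset.sum_nonneg fun ω _ => hβ0 _) (Nat.cast_nonneg _)
    calc 5 / 4 * (K : ℝ) * ((∑ k, |c k|) * Ex (fun ω : Om ι K => β (sg e ω)))
        ≤ 5 / 4 * (K : ℝ) * ((2 * d) * (2 * N * Real.exp (-(τ ^ 2 / (2 * K))))) := by
          apply mul_le_mul_of_nonneg_left _ (by positivity)
          exact mul_le_mul hc hβE hex0 (by positivity)
      _ = (40 * K * d * N * Real.exp (-(τ ^ 2 / (2 * K)))) / 8 := by ring
      _ ≤ 1 / 8 := by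
          apply div_le_div_of_nonneg_right c2 (by norm_num)
  have hβs0 : ∀ (k) (ω : Om ι K), 0 ≤ Tn (ρ k / 2) (fun ω' : Om ι K => β (sg e ω')) ω := by
    intro k ω
    have h1 := tn_mono (hρ2 k) (fun _ => 0) (fun ω' : Om ι K => β (sg e ω')) (fun ω' => hβ0 _) ω
    rwa [tn_const] at h1
  have hD20 : ∀ ω, 0 ≤ D2 ω := by
    intro ω
    simp only [hD2]
    exact mul_nonneg (by positivity) (Finset.sum_nonneg fun k _ =>
      mul_nonneg (abs_nonneg _) (hβs0 k ω))
  set M : ℝ := (Fintype.card (Om ι K) : ℝ) with hM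
  have hM0 : 0 ≤ M := Nat.cast_nonneg _
  have hgood := good (ι := ι) hKg
  rw [← hM] at hgood
  set G := univ.filter fun ω : Om ι K => ∀ x, K ≤ 4 * gam ω x ∧ 4 * gam ω x ≤ 3 * K with hG
  set B1 := univ.filter fun ω : Om ι K => 1 < ∑ x, err x ω ^ 2 with hB1
  set B2 := univ.filter fun ω : Om ι K => 1 < D2 ω with hB2
  have hB1c : (B1.card : ℝ) ≤ 1 / 8 * M :=
    TYP_markov _ (fun ω => Finset.sum_nonneg fun x _ => sq_nonneg _) hE1s
  have hB2c : (B2.card : ℝ) ≤ 1 / 8 * M := TYP_markov _ hD20 hE2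
  refine ⟨(G \ B1) \ B2, ?_, ?_, ?_⟩
  · have h1 : (G.card : ℝ) ≤ ((G \ B1) \ B2).card + B1.card + B2.card := by
      have h2 : G ⊆ ((G \ B1) \ B2) ∪ B1 ∪ B2 := by
        intro ω hω
        simp only [Finset.mem_union, Finset.mem_sdiff]
        tauto
      have h3 := (Finset.card_le_card h2).trans (Finset.card_union_le _ _)
      have h4 := Finset.card_union_le ((G \ B1) \ B2) B1
      have h5 : G.card ≤ ((G \ B1) \ B2).card + B1.card + B2.card := by omega
      exact_mod_cast h5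
    linarith
  · intro ω hω
    rw [Finset.mem_sdiff, Finset.mem_sdiff, hG, Finset.mem_filter] at hω
    exact hω.1.1.2
  · intro ω hω Z hZ hkerZ
    rw [Finset.mem_sdiff, Finset.mem_sdiff] at hω
    have h1 : ∑ x, err x ω ^ 2 ≤ 1 := by
      by_contra hcon
      exact hω.1.2 (by rw [hB1, Finset.mem_filter]; exact ⟨mem_univ _, not_le.1 hcon⟩)
    have h2 : D2 ω ≤ 1 := by
      by_contra hcon
      exact hω.2 (by rw [hB2, Finset.mem_filter]; exact ⟨mem_univ _, not_le.1 hcon⟩)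
    set z : ℝ := ∑ x, |(Z x : ℝ)| with hz
    have hz0 : 0 ≤ z := Finset.sum_nonneg fun x _ => abs_nonneg _
    obtain ⟨x₀⟩ := ‹Nonempty ι›
    set w0 : ℝ := ww e K x₀ with hw0
    have hww : ∀ x, ww e K x = w0 := fun x => ww_trans e ht K x x₀
    have hw0' : 1 / 2 ≤ w0 := hw x₀
    -- main part
    have hmain : |∑ x, (∑ k, c k * Tn (ρ k / 2) (F x) ω) * (Z x : ℝ)| ≤ z * (7 * d + 1) := by
      have e1 : ∑ x, (∑ k, c k * Tn (ρ k / 2) (F x) ω) * (Z x : ℝ) =
          ∑ k, c k * Tn (ρ k / 2) (fun ω' => ∑ x, (Z x : ℝ) * F x ω') ω := by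
        have e2 : ∀ k, Tn (ρ k / 2) (fun ω' => ∑ x, (Z x : ℝ) * F x ω') ω =
            ∑ x, (Z x : ℝ) * Tn (ρ k / 2) (F x) ω := fun k => tn_lin univ _ _ _ _
        simp only [e2, Finset.sum_mul, Finset.mul_sum]
        rw [Finset.sum_comm]
        refine Finset.sum_congr rfl fun k _ => Finset.sum_congr rfl fun x _ => ?_
        ring
      have e3 : ∀ k, |Tn (ρ k / 2) (fun ω' => ∑ x, (Z x : ℝ) * F x ω') ω| ≤
          z * (7 / 2) + z * (5 / 4 * K) * Tn (ρ k / 2) (fun ω' => β (sg e ω')) ω := by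
        intro k
        have e4 := TYP_abs (hρ2 k) (fun ω' => ∑ x, (Z x : ℝ) * F x ω')
          (fun ω' => z * (7 / 2) + z * (5 / 4 * K) * β (sg e ω')) (fun ω' => by
            have e5 := hβ ω' Z hZ hkerZ
            have e6 : ∑ x, (Z x : ℝ) * F x ω' =
                ∑ x, ((K : ℝ) * hh e K x (sg e ω')) * (Z x : ℝ) :=
              Finset.sum_congr rfl fun x _ => mul_comm _ _
            rw [e6]
            refine e5.trans (le_of_eq ?_)
            ring) ω
        refine e4.trans (le_of_eq ?_)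
        have e7 := tn_lin (univ : Finset Bool) (ρ k / 2)
          (fun b => if b then z * (7 / 2) else z * (5 / 4 * K))
          (fun b (ω' : Om ι K) => if b then (1 : ℝ) else β (sg e ω')) ω
        simp only [Fintype.sum_bool, if_true, Bool.false_eq_true, if_false, mul_one, tn_const] at e7
        exact e7
      rw [e1]
      calc |∑ k, c k * Tn (ρ k / 2) (fun ω' => ∑ x, (Z x : ℝ) * F x ω') ω|
          ≤ ∑ k, |c k * Tn (ρ k / 2) (fun ω' => ∑ x, (Z x : ℝ) * F x ω') ω| :=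
            Finset.abs_sum_le_sum_abs _ _
        _ ≤ ∑ k, |c k| * (z * (7 / 2) +
            z * (5 / 4 * K) * Tn (ρ k / 2) (fun ω' => β (sg e ω')) ω) := by
            refine Finset.sum_le_sum fun k _ => ?_
            rw [abs_mul]
            exact mul_le_mul_of_nonneg_left (e3 k) (abs_nonneg _)
        _ = z * (7 / 2) * (∑ k, |c k|) + z * D2 ω := by
            simp only [hD2, Finset.mul_sum, ← Finset.sum_add_distrib]
            refine Finset.sum_congr rfl fun k _ => ?_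
            ring
        _ ≤ z * (7 / 2) * (2 * d) + z * 1 := by
            apply add_le_add
            · exact mul_le_mul_of_nonneg_left hc (by positivity)
            · exact mul_le_mul_of_nonneg_left h2 hz0
        _ = z * (7 * d + 1) := by ring
    have herr1 : |∑ x, err x ω * (Z x : ℝ)| ≤ z := by
      refine (Finset.abs_sum_le_sum_abs _ _).trans (Finset.sum_le_sum fun x _ => ?_)
      rw [abs_mul]
      have h3 : err x ω ^ 2 ≤ 1 :=
        (Finset.single_le_sum (f := fun x => err x ω ^ 2) (fun y _ => sq_nonneg _)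
          (mem_univ x)).trans h1
      have h4 : |err x ω| ≤ 1 := by
        rw [← sq_abs] at h3
        nlinarith [abs_nonneg (err x ω)]
      exact mul_le_of_le_one_left (abs_nonneg _) h4
    have hsplit : w0 / 2 * ∑ x, TT ω x * (Z x : ℝ) =
        ∑ x, (∑ k, c k * Tn (ρ k / 2) (F x) ω) * (Z x : ℝ) - ∑ x, err x ω * (Z x : ℝ) := by
      rw [Finset.mul_sum, ← Finset.sum_sub_distrib]
      refine Finset.sum_congr rfl fun x _ => ?_
      simp only [herr, hww x]
      ring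
    have h5 : |w0 / 2 * ∑ x, TT ω x * (Z x : ℝ)| ≤ z * (7 * d + 1) + z := by
      rw [hsplit]
      exact (abs_sub _ _).trans (add_le_add hmain herr1)
    rw [abs_mul, abs_of_nonneg (by linarith : 0 ≤ w0 / 2)] at h5
    have h6 : 1 / 4 * |∑ x, TT ω x * (Z x : ℝ)| ≤ w0 / 2 * |∑ x, TT ω x * (Z x : ℝ)| :=
      mul_le_mul_of_nonneg_right (by linarith) (abs_nonneg _)
    have h7 : (28 * (d : ℝ) + 8) * z = 4 * (z * (7 * d + 1) + z) := by ring
    rw [h7]
    linarith

end Pool.Agent.BF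

namespace Pool.Agent.BF

theorem typ : type_of% @typ_pr := @typ_pr

end Pool.Agent.BF
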