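import Pool.Agent.Lib_helper92.BG.Defs
import Pool.Agent.Lib_helper92.BGA.PK2
import Pool.Agent.Lib_helper92.BGA.TYP

set_option linter.unusedSectionVars false

namespace Pool.Agent.BF

open Finset

variable {ι : Type} [Fintype ι] [DecidableEq ι] {S : Type} [AddCommGroup S] [Fintype S]
  [DecidableEq S]

theorem mn2_thr [Nonempty ι] (e : ι → S) (hg : Gen e) (ht : Trans e) (hs : ∀ x, SgnSym e x)
    {R : ℕ} (hR : 8 ≤ R)
    (hS : Fintype.card ι * Real.log (25 * R) ≤ Real.log (Fintype.card S)) (x : ι) :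
    1 / 2 ≤ ww e (R ^ 2) x := by
  have hN : (1 : ℝ) ≤ Fintype.card ι := by exact_mod_cast Fintype.card_pos
  have hRr : (8 : ℝ) ≤ R := by exact_mod_cast hR
  refine threshold e hg ht hs (by nlinarith) ?_ x
  refine lt_of_lt_of_le ?_ hS
  refine mul_lt_mul_of_pos_left ?_ (by linarith)
  rw [Real.log_mul (by norm_num) (by linarith)]
  push_cast
  rw [Real.log_pow]
  have h25 : Real.log 2 + 5 / 2 < Real.log 25 := by
    have e2 : Real.log 25 = Real.log 2 + Real.log (25 / 2) := by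
      rw [← Real.log_mul (by norm_num) (by norm_num)]; norm_num
    rw [e2]
    have e3 : (5 / 2 : ℝ) < Real.log (25 / 2) := by
      rw [Real.lt_log_iff_exp_lt (by norm_num)]
      have h := Real.exp_one_lt_d9
      have h5 : Real.exp (5 / 2) ^ 2 = Real.exp 1 ^ 5 := by
        rw [← Real.exp_nat_mul, ← Real.exp_nat_mul]; norm_num
      have h6 : Real.exp 1 ^ 5 < (2.7182818286 : ℝ) ^ 5 :=
        pow_lt_pow_left₀ h (Real.exp_pos _).le (by norm_num)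
      have h7 : Real.exp (5 / 2) ^ 2 < (25 / 2 : ℝ) ^ 2 := by
        rw [h5]; refine h6.trans ?_; norm_num
      exact lt_of_pow_lt_pow_left₀ 2 (by norm_num) h7
    linarith
  push_cast
  linarith

theorem main_group2_pr [Nonempty ι] (e : ι → S) (hg : Gen e) (ht : Trans e)
    (hs : ∀ x, SgnSym e x)
    {R d : ℕ} (hR : 8 ≤ R) (hS : Fintype.card ι * Real.log (25 * R) ≤ Real.log (Fintype.card S))
    (hKg : 8 * Real.log (8 * Fintype.card ι) ≤ (R : ℝ) ^ 2) {τ : ℝ} (hτ : 0 ≤ τ)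
    (hτ3 : (τ + 2) ^ 3 ≤ (R : ℝ) ^ 4) (hd : 1 ≤ d)
    (c1 : 8 * (d : ℝ) ^ 2 * Fintype.card ι * (R : ℝ) ^ 2 ≤ 4 ^ d)
    (c2 : 40 * (R : ℝ) ^ 2 * d * Fintype.card ι * Real.exp (-(τ ^ 2 / (2 * (R : ℝ) ^ 2))) ≤ 1)
    (c3 : 16 * (14 * d + 5) ≤ R ^ 2)
    (𝓑 : Finset (ι → ℤ)) (h1 : ∀ X ∈ 𝓑, ∀ x, X x = 1 ∨ X x = -1)
    (h2 : ∀ X ∈ 𝓑, ∑ x, X x • e x = 0) (h3 : ∀ X ∈ 𝓑, -X ∈ 𝓑) (hne : 𝓑.Nonempty) :
    Real.log 𝓑.card ≤ 16 * (14 * (d : ℝ) + 5) ^ 2 * Fintype.card ι / (R : ℝ) ^ 2 + Real.log 4 := by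
  have hK : 64 ≤ R ^ 2 := by nlinarith
  obtain ⟨A, hA, hgood, htyp⟩ := typ e ht hs (K := R ^ 2) (d := d) hK (by push_cast; exact hKg)
    (τ := τ) hτ (by push_cast; rw [← pow_mul]; exact hτ3) hd (by push_cast; exact c1)
    (by
      have h0 : (40 : ℝ) * ((R ^ 2 : ℕ) : ℝ) * d * Fintype.card ι *
        Real.exp (-(τ ^ 2 / (2 * ((R ^ 2 : ℕ) : ℝ)))) = 40 * (R : ℝ) ^ 2 * d * Fintype.card ι *
          Real.exp (-(τ ^ 2 / (2 * (R : ℝ) ^ 2))) := by push_cast; ring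
      rw [h0]; exact c2)
    (mn2_thr e hg ht hs hR hS)
  have key := pack2 (K := R ^ 2) (q := 14 * d + 5) (by omega) c3 𝓑 h1 h3 hne A hA hgood ?_
  · push_cast at key
    exact key
  intro ω hω ω' hω' X hX X' hX' hxx
  have hZ : ∀ x, ∃ z : ℤ, (z = -1 ∨ z = 0 ∨ z = 1) ∧ 2 * z = X' x - X x := by
    intro x
    rcases h1 X hX x with h | h <;> rcases h1 X' hX' x with h' | h'
    · exact ⟨0, by simp, by rw [h, h']; norm_num⟩
    · exact ⟨-1, by simp, by rw [h, h']; norm_num⟩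
    · exact ⟨1, by simp, by rw [h, h']; norm_num⟩
    · exact ⟨0, by simp, by rw [h, h']; norm_num⟩
  choose Z hZ1 hZ2 using hZ
  have hlat : ∑ x, (2 * Z x) • e x = 0 := by
    have : ∀ x, (2 * Z x) • e x = X' x • e x - X x • e x := by
      intro x; rw [hZ2 x, sub_smul]
    rw [Finset.sum_congr rfl fun x _ => this x, Finset.sum_sub_distrib, h2 X hX, h2 X' hX', sub_zero]
  have b1 := htyp ω hω Z hZ1 hlat
  have b2 := htyp ω' hω' Z hZ1 hlat
  have hdiff : ∀ x, TT ω x - TT ω' x = 4 * (14 * (d : ℝ) + 5) * (Z x : ℝ) := by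
    intro x
    have h5 : (gam ω x : ℤ) - (gam ω' x : ℤ) = ((14 * d + 5 : ℕ) : ℤ) * (2 * Z x) := by
      rw [hZ2 x]
      have := hxx x
      linarith
    have h6 : (gam ω x : ℝ) - (gam ω' x : ℝ) = ((14 * d + 5 : ℕ) : ℝ) * (2 * (Z x : ℝ)) := by
      exact_mod_cast h5
    unfold TT
    push_cast at h6 ⊢
    linarith
  have habs : ∀ x, (Z x : ℝ) * (Z x : ℝ) = |(Z x : ℝ)| := by
    intro x
    rcases hZ1 x with h | h | h <;> rw [h] <;> norm_num
  have hsum : ∑ x, TT ω x * (Z x : ℝ) - ∑ x, TT ω' x * (Z x : ℝ) =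
      4 * (14 * (d : ℝ) + 5) * ∑ x, |(Z x : ℝ)| := by
    rw [← Finset.sum_sub_distrib, Finset.mul_sum]
    refine Finset.sum_congr rfl fun x _ => ?_
    rw [← sub_mul, hdiff x, mul_assoc, habs x]
  have hs0 : 0 ≤ ∑ x, |(Z x : ℝ)| := Finset.sum_nonneg fun x _ => abs_nonneg _
  have c1' := (abs_le.1 b1).2
  have c2' := (abs_le.1 b2).1
  have hzero : ∑ x, |(Z x : ℝ)| = 0 := by nlinarith
  have hz : ∀ x, Z x = 0 := by
    intro x
    have := (Finset.sum_eq_zero_iff_of_nonneg fun x _ => abs_nonneg _).1 hzero x (mem_univ x)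
    have h7 : (Z x : ℝ) = 0 := abs_eq_zero.1 this
    exact_mod_cast h7
  funext x
  have := hZ2 x
  rw [hz x] at this
  linarith

end Pool.Agent.BF

namespace Pool.Agent.BF

theorem main_group2 : type_of% @main_group2_pr := @main_group2_pr

end Pool.Agent.BF
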